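import Mathlib

/-!
# Positive upper density of returns

Helper file for the problem MP_96e181_an.
-/

open MeasureTheory Filter Topology Set

namespace Pool.Agent.H.MP_96e181_an.PD

/-- number of visits of `x` to `E` before time `N` -/
noncomputable def visits {X : Type*} (T : X → X) (E : Set X) (N : ℕ) (x : X) : ℝ :=
  ∑ n ∈ Finset.range N, E.indicator (fun _ => (1 : ℝ)) (T^[n] x)

variable {X : Type*} {T : X → X}

lemma visits_nonneg (T : X → X) (E : Set X) (N : ℕ) (x : X) : 0 ≤ visits T E N x :=
  Finset.sum_nonneg fun _ _ => indicator_nonneg (fun _ _ => zero_le_one) _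

lemma visits_le (T : X → X) (E : Set X) (N : ℕ) (x : X) : visits T E N x ≤ N := by
  calc visits T E N x ≤ ∑ n ∈ Finset.range N, (1 : ℝ) :=
        Finset.sum_le_sum fun n _ => indicator_le_self' (fun _ _ => zero_le_one) _
    _ = N := by simp

variable [MeasurableSpace X] {μ : Measure X}

lemma measurable_visits (hT : Measurable T) {E : Set X} (hE : MeasurableSet E) (N : ℕ) :
    Measurable (visits T E N) := by
  unfold visits
  exact Finset.measurable_sum _ fun n _ =>
    (measurable_const.indicator hE).comp (hT.iterate n)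

omit [MeasurableSpace X] in
lemma visits_succ (T : X → X) (E : Set X) (N : ℕ) (x : X) :
    |visits T E N (T x) - visits T E N x| ≤ 1 := by
  have h : visits T E N (T x) + E.indicator (fun _ => (1 : ℝ)) x =
      visits T E N x + E.indicator (fun _ => (1 : ℝ)) (T^[N] x) := by
    unfold visits
    have h1 := Finset.sum_range_succ (fun n => E.indicator (fun _ => (1 : ℝ)) (T^[n] x)) N
    have h2 := Finset.sum_range_succ' (fun n => E.indicator (fun _ => (1 : ℝ)) (T^[n] x)) N
    rw [h1] at h2
    simp only [Function.iterate_succ_apply, Function.iterate_zero, id] at h2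
    linarith
  have h0 : ∀ y : X, 0 ≤ E.indicator (fun _ => (1 : ℝ)) y := fun y =>
    indicator_nonneg (fun _ _ => zero_le_one) _
  have h1 : ∀ y : X, E.indicator (fun _ => (1 : ℝ)) y ≤ 1 := fun y =>
    indicator_le_self' (fun _ _ => zero_le_one) _
  rw [abs_le]
  constructor <;> linarith [h0 x, h1 x, h0 (T^[N] x), h1 (T^[N] x)]

/-- Almost every point of `E` returns to `E` with positive upper density. -/
theorem ae_visits [IsFiniteMeasure μ] (hT : MeasurePreserving T μ μ) {E : Set X}
    (hE : MeasurableSet E) :
    ∀ᵐ x ∂μ, x ∈ E → ∃ δ : ℝ, 0 < δ ∧ ∃ᶠ N : ℕ in atTop, δ * N ≤ visits T E N x := by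
  -- the set of points whose averages tend to zero
  set Z : Set X := {x | Tendsto (fun N : ℕ => visits T E N x / N) atTop (𝓝 0)} with hZ
  have hZm : MeasurableSet Z := by
    exact measurableSet_tendsto (𝓝 0) fun N =>
      (measurable_visits hT.measurable hE N).div_const _
  have hZinv : T ⁻¹' Z = Z := by
    have hdiff : ∀ x, Tendsto (fun N : ℕ => visits T E N (T x) / N - visits T E N x / N) atTop
        (𝓝 0) := by
      intro x
      rw [tendsto_zero_iff_norm_tendsto_zero]
      refine squeeze_zero (g := fun N : ℕ => 1 / (N : ℝ)) (fun _ => norm_nonneg _) (fun N => ?_)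
        tendsto_one_div_atTop_nhds_zero_nat
      rw [← sub_div, norm_div, Real.norm_eq_abs, Real.norm_of_nonneg (Nat.cast_nonneg N)]
      exact div_le_div_of_nonneg_right (visits_succ T E N x) (Nat.cast_nonneg N)
    ext x
    constructor
    · intro hx
      have hx' : Tendsto (fun N : ℕ => visits T E N (T x) / N) atTop (𝓝 0) := hx
      have := hx'.sub (hdiff x)
      rw [sub_zero] at this
      refine Tendsto.congr (fun N => ?_) this
      ring
    · intro hx
      have hx' : Tendsto (fun N : ℕ => visits T E N x / N) atTop (𝓝 0) := hx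
      have := hx'.add (hdiff x)
      rw [add_zero] at this
      show Tendsto (fun N : ℕ => visits T E N (T x) / N) atTop (𝓝 0)
      refine Tendsto.congr (fun N => ?_) this
      ring
  have hZn : ∀ n : ℕ, (T^[n]) ⁻¹' Z = Z := by
    intro n
    induction n with
    | zero => rfl
    | succ n ih => rw [Function.iterate_succ, preimage_comp, ih, hZinv]
  have hind : ∀ n : ℕ, ∫ x in Z, E.indicator (fun _ => (1 : ℝ)) (T^[n] x) ∂μ = μ.real (Z ∩ E) := by
    intro n
    have hm := (hT.iterate n)
    have h1 : ∫ x in (T^[n]) ⁻¹' Z, E.indicator (fun _ => (1 : ℝ)) (T^[n] x) ∂μ =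
        ∫ x in Z, E.indicator (fun _ => (1 : ℝ)) x ∂μ := by
      have hmap := setIntegral_map (μ := μ) (g := T^[n]) (f := E.indicator (fun _ => (1 : ℝ))) hZm
        (by
          rw [hm.map_eq]
          exact (measurable_const.indicator hE).aestronglyMeasurable)
        hm.measurable.aemeasurable
      rw [hm.map_eq] at hmap
      exact hmap.symm
    rw [hZn n] at h1
    rw [h1, integral_indicator hE, setIntegral_const, Measure.real, Measure.restrict_apply' hZm,
      Measure.real, inter_comm]
    simp
  have havg : ∀ N : ℕ, N ≠ 0 → ∫ x in Z, visits T E N x / N ∂μ = μ.real (Z ∩ E) := by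
    intro N hN
    rw [integral_div]
    unfold visits
    rw [integral_finsetSum]
    · simp_rw [hind]
      rw [Finset.sum_const, Finset.card_range, nsmul_eq_mul]
      field_simp
    · intro n _
      refine Integrable.of_bound (((measurable_const.indicator hE).comp
        (hT.iterate n).measurable).aestronglyMeasurable) 1 (Eventually.of_forall fun x => ?_)
      by_cases hx : T^[n] x ∈ E
      · simp [hx]
      · simp [hx]
  have hlim : Tendsto (fun N : ℕ => ∫ x in Z, visits T E N x / N ∂μ) atTop
      (𝓝 (∫ x in Z, (0 : ℝ) ∂μ)) := by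
    refine tendsto_integral_of_dominated_convergence (fun _ => (1 : ℝ))
      (fun N => ((measurable_visits hT.measurable hE N).div_const _).aestronglyMeasurable)
      (integrable_const _) (fun N => Eventually.of_forall fun x => ?_) ?_
    · rw [Real.norm_of_nonneg (div_nonneg (visits_nonneg _ _ _ _) (Nat.cast_nonneg N))]
      rcases Nat.eq_zero_or_pos N with rfl | hN
      · simp
      · rw [div_le_one (by exact_mod_cast hN)]
        exact visits_le _ _ _ _
    · filter_upwards [ae_restrict_mem hZm] with x hx using hx
  have h0 : μ.real (Z ∩ E) = 0 := by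
    refine tendsto_nhds_unique ?_ hlim |>.trans (by simp)
    refine tendsto_const_nhds.congr' ?_
    filter_upwards [eventually_ne_atTop 0] with N hN
    exact (havg N hN).symm
  have h0' : μ (Z ∩ E) = 0 := by
    rwa [measureReal_eq_zero_iff] at h0
  have hae : ∀ᵐ x ∂μ, x ∉ Z ∩ E := measure_eq_zero_iff_ae_notMem.1 h0'
  filter_upwards [hae] with x hx hxE
  by_contra hcon
  push Not at hcon
  apply hx
  refine ⟨?_, hxE⟩
  show Tendsto (fun N : ℕ => visits T E N x / N) atTop (𝓝 0)
  rw [Metric.tendsto_atTop]
  intro ε hε
  have h1 := hcon (ε / 2) (by positivity)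
  obtain ⟨N0, hN0⟩ := eventually_atTop.1 h1
  refine ⟨max N0 1, fun N hN => ?_⟩
  have hN1 : N0 ≤ N := (le_max_left _ _).trans hN
  have hN2 : 1 ≤ N := (le_max_right _ _).trans hN
  have hNr : (0 : ℝ) < N := by exact_mod_cast hN2
  rw [dist_zero_right, Real.norm_of_nonneg (div_nonneg (visits_nonneg _ _ _ _) hNr.le),
    div_lt_iff₀ hNr]
  have := hN0 N hN1
  nlinarith

end Pool.Agent.H.MP_96e181_an.PD
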