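import Pool.Agent.H.MP_96e181_an.pd.Iso
import Pool.Agent.H.MP_96e181_an.pd.Ret

/-!
# Sections of invariant sets of product systems are almost periodic

Helper file for the problem MP_96e181_an.
-/

open MeasureTheory Filter Topology Set

namespace Pool.Agent.H.MP_96e181_an.PD

/-! ### A combinatorial criterion for total boundedness -/

lemma exists_separated {d : ℕ → ℕ → ℝ} {ε : ℝ}
    (hcon : ∀ F : Finset ℕ, ∃ n, ∀ m ∈ F, ε ≤ d n m) (hsymm : ∀ n m, d n m = d m n)
    (hd0 : ∀ n, d n n < ε) (J : ℕ) :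
    ∃ F : Finset ℕ, F.card = J ∧ ∀ a ∈ F, ∀ b ∈ F, a ≠ b → ε ≤ d a b := by
  induction J with
  | zero => exact ⟨∅, rfl, by simp⟩
  | succ J ih =>
    obtain ⟨F, hF, hsep⟩ := ih
    obtain ⟨n, hn⟩ := hcon F
    have hnF : n ∉ F := fun h => absurd (hn n h) (not_le.2 (hd0 n))
    refine ⟨insert n F, by rw [Finset.card_insert_of_notMem hnF, hF], ?_⟩
    intro a ha b hb hab
    rw [Finset.mem_insert] at ha hb
    rcases ha with rfl | ha <;> rcases hb with rfl | hb
    · exact absurd rfl hab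
    · exact hn b hb
    · rw [hsymm]; exact hn a ha
    · exact hsep a ha b hb hab

lemma tb_of_density {d : ℕ → ℕ → ℝ} {ε : ℝ} (hsymm : ∀ n m, d n m = d m n)
    (hshift : ∀ n m l, d (n + l) (m + l) = d n m) {P : ℕ → Prop} [DecidablePred P]
    (hP : ∀ n m, P n → P m → d n m < ε) {δ : ℝ} (hδ : 0 < δ)
    (hfreq : ∃ᶠ N : ℕ in atTop, δ * N ≤ ((Finset.range N).filter P).card) :
    ∃ F : Finset ℕ, ∀ n, ∃ m ∈ F, d n m < ε := by
  by_contra hcon
  push Not at hcon
  obtain ⟨n0, hn0⟩ : ∃ n, P n := by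
    obtain ⟨N, hN, hN1⟩ := (hfreq.and_eventually (eventually_ge_atTop 1)).exists
    by_contra hno
    push Not at hno
    have : (Finset.range N).filter P = ∅ := Finset.filter_eq_empty_iff.2 fun n _ => hno n
    rw [this, Finset.card_empty] at hN
    have h1 : (1 : ℝ) ≤ N := by exact_mod_cast hN1
    simp only [Nat.cast_zero] at hN
    nlinarith
  have hd0 : ∀ n, d n n < ε := by
    intro n
    have h1 := hshift 0 0 n
    have h2 := hshift 0 0 n0
    rw [zero_add] at h1 h2
    rw [h1, ← h2]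
    exact hP n0 n0 hn0 hn0
  obtain ⟨J, hJ⟩ := exists_nat_gt (1 / δ)
  have hJδ : 1 < J * δ := by rwa [div_lt_iff₀ hδ] at hJ
  obtain ⟨F, hF, hsep⟩ := exists_separated hcon hsymm hd0 J
  set M : ℕ := F.sup id with hM
  obtain ⟨N, hN, hN1⟩ := (hfreq.and_eventually
    (eventually_gt_atTop ⌈((M : ℝ) + 1) / (J * δ - 1)⌉₊)).exists
  set A : Finset ℕ := (Finset.range N).filter P with hA
  have hdisj : (F : Set ℕ).PairwiseDisjoint fun a => A.image (· + a) := by
    intro a ha b hb hab
    rw [Function.onFun, Finset.disjoint_left]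
    intro t hta htb
    rw [Finset.mem_image] at hta htb
    obtain ⟨n, hn, rfl⟩ := hta
    obtain ⟨m, hm, hmn⟩ := htb
    have hPn : P n := (Finset.mem_filter.1 hn).2
    have hPm : P m := (Finset.mem_filter.1 hm).2
    have h1 := hsep a ha b hb hab
    have h2 := hP m n hPm hPn
    -- `d a b = d m n`
    have h3 : d a b = d m n := by
      have e1 := hshift a b (n + m)
      have e2 := hshift m n (n + a)
      have e3 : a + (n + m) = m + (n + a) := by ring
      have e4 : b + (n + m) = n + (n + a) := by omega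
      rw [e3, e4] at e1
      rw [← e1, e2]
    linarith
  have hcard : J * A.card ≤ N + M := by
    have h1 : (F.biUnion fun a => A.image (· + a)).card = ∑ a ∈ F, (A.image (· + a)).card :=
      Finset.card_biUnion hdisj
    have h2 : ∑ a ∈ F, (A.image (· + a)).card = J * A.card := by
      rw [Finset.sum_congr rfl fun a _ => Finset.card_image_of_injective A (add_left_injective a),
        Finset.sum_const, hF, smul_eq_mul]
    have h3 : (F.biUnion fun a => A.image (· + a)) ⊆ Finset.range (N + M) := by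
      intro t ht
      rw [Finset.mem_biUnion] at ht
      obtain ⟨a, ha, ht⟩ := ht
      rw [Finset.mem_image] at ht
      obtain ⟨n, hn, rfl⟩ := ht
      have hnN : n < N := Finset.mem_range.1 (Finset.mem_filter.1 hn).1
      have haM : a ≤ M := Finset.le_sup (f := id) ha
      rw [Finset.mem_range]
      omega
    have h4 := Finset.card_le_card h3
    rw [Finset.card_range, h1, h2] at h4
    exact h4
  have hcard' : (J : ℝ) * A.card ≤ N + M := by exact_mod_cast hcard
  have hN2 : ((M : ℝ) + 1) / (J * δ - 1) < N := (Nat.le_ceil _).trans_lt (by exact_mod_cast hN1)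
  rw [div_lt_iff₀ (by linarith)] at hN2
  have hJ0 : (0 : ℝ) ≤ J := Nat.cast_nonneg J
  have h5 : (J : ℝ) * (δ * N) ≤ J * A.card := mul_le_mul_of_nonneg_left hN hJ0
  nlinarith

/-! ### The pseudometric of a measurable set -/

variable {Y : Type*} [MeasurableSpace Y] {ν : Measure Y} {S : Y → Y}

/-- distance of the iterated preimages of `C` -/
noncomputable def dd (ν : Measure Y) (S : Y → Y) (C : Set Y) (n m : ℕ) : ℝ :=
  ν.real (symmDiff (S^[n] ⁻¹' C) (S^[m] ⁻¹' C))

lemma dd_symm (C : Set Y) (n m : ℕ) : dd ν S C n m = dd ν S C m n := by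
  unfold dd; rw [symmDiff_comm]

lemma dd_tri [IsFiniteMeasure ν] (C : Set Y) (n m l : ℕ) :
    dd ν S C n l ≤ dd ν S C n m + dd ν S C m l :=
  measureReal_symmDiff_le _

lemma real_preimage_symmDiff (hS : MeasurePreserving S ν ν) {A C : Set Y} (hA : MeasurableSet A)
    (hC : MeasurableSet C) (l : ℕ) :
    ν.real (symmDiff (S^[l] ⁻¹' A) (S^[l] ⁻¹' C)) = ν.real (symmDiff A C) := by
  rw [← preimage_symmDiff, Measure.real, Measure.real,
    (hS.iterate l).measure_preimage (hA.symmDiff hC).nullMeasurableSet]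

lemma dd_shift (hS : MeasurePreserving S ν ν) {C : Set Y} (hC : MeasurableSet C) (n m l : ℕ) :
    dd ν S C (n + l) (m + l) = dd ν S C n m := by
  unfold dd
  rw [Function.iterate_add, Function.iterate_add, preimage_comp, preimage_comp,
    real_preimage_symmDiff hS ((hS.iterate n).measurable hC) ((hS.iterate m).measurable hC)]

lemma dd_congr (hS : MeasurePreserving S ν ν) {A C : Set Y} (h : A =ᵐ[ν] C) (n m : ℕ) :
    dd ν S A n m = dd ν S C n m := by
  unfold dd
  refine measureReal_congr (ae_eq_set_symmDiff ?_ ?_)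
  · exact (hS.iterate n).quasiMeasurePreserving.preimage_ae_eq h
  · exact (hS.iterate m).quasiMeasurePreserving.preimage_ae_eq h

lemma dd_pre (hS : MeasurePreserving S ν ν) {C : Set Y} (hC : MeasurableSet C) (l n m : ℕ) :
    dd ν S (S^[l] ⁻¹' C) n m = dd ν S C n m := by
  rw [← dd_shift hS hC n m l]
  have e : ∀ a : ℕ, S^[a] ⁻¹' (S^[l] ⁻¹' C) = S^[a + l] ⁻¹' C := by
    intro a
    rw [add_comm, Function.iterate_add S l a, preimage_comp]
  unfold dd
  rw [e, e]

/-! ### Sections of invariant sets -/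

variable {X : Type*} [MeasurableSpace X] {μ : Measure X} {T : X → X}

/-- all points of the orbit of `x` satisfy the invariance relation -/
def Good (ν : Measure Y) (S : Y → Y) (T : X → X) (B : Set (X × Y)) (x : X) : Prop :=
  ∀ k : ℕ, (S ⁻¹' (Prod.mk (T^[k + 1] x) ⁻¹' B)) =ᵐ[ν] (Prod.mk (T^[k] x) ⁻¹' B)

lemma ae_good [SFinite ν] (hT : MeasurePreserving T μ μ) {B : Set (X × Y)}
    (hB : MeasurableSet B) (hS : Measurable S)
    (hinv : (μ.prod ν) (symmDiff (Prod.map T S ⁻¹' B) B) = 0) : ∀ᵐ x ∂μ, Good ν S T B x := by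
  have hm : MeasurableSet (symmDiff (Prod.map T S ⁻¹' B) B) :=
    ((hT.measurable.prodMap hS) hB).symmDiff hB
  have h1 : ∀ᵐ x ∂μ, (S ⁻¹' (Prod.mk (T x) ⁻¹' B)) =ᵐ[ν] (Prod.mk x ⁻¹' B) := by
    filter_upwards [(Measure.measure_prod_null hm).1 hinv] with x hx
    rw [← measure_symmDiff_eq_zero_iff]
    exact hx
  refine ae_all_iff.2 fun k => ?_
  filter_upwards [(hT.iterate k).quasiMeasurePreserving.ae h1] with x hx
  rw [Function.iterate_succ_apply']
  exact hx

lemma Good.iterate {B : Set (X × Y)} {x : X} (h : Good ν S T B x) (j : ℕ) :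
    Good ν S T B (T^[j] x) := by
  intro k
  have := h (k + j)
  rwa [show k + j + 1 = (k + 1) + j by ring, Function.iterate_add_apply T (k + 1) j,
    Function.iterate_add_apply T k j] at this

lemma Good.preimage {B : Set (X × Y)} {x : X} (h : Good ν S T B x)
    (hS : MeasurePreserving S ν ν) (n : ℕ) :
    (S^[n] ⁻¹' (Prod.mk (T^[n] x) ⁻¹' B)) =ᵐ[ν] (Prod.mk x ⁻¹' B) := by
  induction n with
  | zero => exact ae_eq_refl _
  | succ n ih =>
    refine ae_eq_trans ?_ ih
    rw [Function.iterate_succ', preimage_comp]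
    exact (hS.iterate n).quasiMeasurePreserving.preimage_ae_eq (h n)

lemma Good.dist_self {B : Set (X × Y)} (hB : MeasurableSet B) {x : X} (h : Good ν S T B x)
    (hS : MeasurePreserving S ν ν) (n : ℕ) :
    ν.real (symmDiff (Prod.mk x ⁻¹' B) (Prod.mk (T^[n] x) ⁻¹' B)) =
      dd ν S (Prod.mk x ⁻¹' B) n 0 := by
  have hBm : ∀ z : X, MeasurableSet (Prod.mk z ⁻¹' B) := fun z => measurable_prodMk_left hB
  rw [← real_preimage_symmDiff hS (hBm x) (hBm _) n]
  unfold dd
  refine measureReal_congr (ae_eq_set_symmDiff (ae_eq_refl _) ?_)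
  exact h.preimage hS n

lemma Good.dist {B : Set (X × Y)} (hB : MeasurableSet B) {x : X} (h : Good ν S T B x)
    (hS : MeasurePreserving S ν ν) (n r : ℕ) :
    ν.real (symmDiff (Prod.mk (T^[n] x) ⁻¹' B) (Prod.mk (T^[r + n] x) ⁻¹' B)) =
      dd ν S (Prod.mk x ⁻¹' B) (r + n) n := by
  have hBm : ∀ z : X, MeasurableSet (Prod.mk z ⁻¹' B) := fun z => measurable_prodMk_left hB
  rw [Function.iterate_add_apply, (h.iterate n).dist_self hB hS r,
    dd_congr hS (h.preimage hS n).symm (r + n) n, dd_pre hS (hBm _)]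
  have h1 := dd_shift hS (hBm (T^[n] x)) r 0 n
  rw [zero_add] at h1
  exact h1.symm

lemma visits_eq_card (T : X → X) (E : Set X) (N : ℕ) (x : X)
    [DecidablePred fun n => T^[n] x ∈ E] :
    visits T E N x = ((Finset.range N).filter fun n => T^[n] x ∈ E).card := by
  unfold visits
  rw [Finset.card_filter]
  push_cast
  refine Finset.sum_congr rfl fun n _ => ?_
  by_cases h : T^[n] x ∈ E <;> simp [h]

/-- **Sections of invariant sets are almost periodic.** -/
theorem ae_apMet [IsFiniteMeasure μ] [IsProbabilityMeasure ν] [IsSeparable ν]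
    (hT : MeasurePreserving T μ μ) (hS : MeasurePreserving S ν ν) {B : Set (X × Y)}
    (hB : MeasurableSet B) (hinv : (μ.prod ν) (symmDiff (Prod.map T S ⁻¹' B) B) = 0) :
    ∀ᵐ x ∂μ, APMet (dd ν S (Prod.mk x ⁻¹' B)) := by
  classical
  obtain ⟨𝒜, h𝒜c, h𝒜⟩ := exists_countable_measureDense (μ := ν)
  have hBm : ∀ z : X, MeasurableSet (Prod.mk z ⁻¹' B) := fun z => measurable_prodMk_left hB
  set E : Set Y → ℕ → Set X := fun c j =>
    {x | ν (symmDiff (Prod.mk x ⁻¹' B) c) < ENNReal.ofReal (1 / (2 * ((j : ℝ) + 1)))} with hE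
  have hEm : ∀ c ∈ 𝒜, ∀ j, MeasurableSet (E c j) := by
    intro c hc j
    have hcm := h𝒜.measurable c hc
    have h1 : MeasurableSet (symmDiff B (univ ×ˢ c)) := hB.symmDiff (MeasurableSet.univ.prod hcm)
    have h2 := measurable_measure_prodMk_left (ν := ν) h1
    have h3 : ∀ x : X, Prod.mk x ⁻¹' (symmDiff B (univ ×ˢ c)) = symmDiff (Prod.mk x ⁻¹' B) c := by
      intro x
      rw [preimage_symmDiff]
      congr 1
      ext y; simp
    simp only [h3] at h2
    exact measurableSet_lt h2 measurable_const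
  have hret : ∀ᵐ x ∂μ, ∀ c ∈ 𝒜, ∀ j : ℕ, x ∈ E c j →
      ∃ δ : ℝ, 0 < δ ∧ ∃ᶠ N : ℕ in atTop, δ * N ≤ visits T (E c j) N x := by
    rw [ae_ball_iff h𝒜c]
    intro c hc
    rw [ae_all_iff]
    intro j
    exact ae_visits hT (hEm c hc j)
  filter_upwards [ae_good hT hB hS.measurable hinv, hret] with x hgood hx
  refine ⟨dd_symm _, dd_tri _, dd_shift hS (hBm x), ?_⟩
  intro ε hε
  obtain ⟨j, hj⟩ := exists_nat_one_div_lt hε
  obtain ⟨c, hc, hcx⟩ := h𝒜.approx (Prod.mk x ⁻¹' B) (hBm x) (measure_ne_top _ _)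
    (1 / (2 * ((j : ℝ) + 1))) (by positivity)
  obtain ⟨δ, hδ, hfreq⟩ := hx c hc j hcx
  refine tb_of_density (P := fun n => T^[n] x ∈ E c j) (dd_symm _) (dd_shift hS (hBm x)) ?_ hδ
    (hfreq.mono fun N hN => by rwa [visits_eq_card] at hN)
  have key : ∀ n r : ℕ, T^[n] x ∈ E c j → T^[r + n] x ∈ E c j →
      dd ν S (Prod.mk x ⁻¹' B) (r + n) n < ε := by
    intro n r hn hm
    rw [← hgood.dist hB hS n r]
    have h1 : ν.real (symmDiff (Prod.mk (T^[n] x) ⁻¹' B) c) < 1 / (2 * ((j : ℝ) + 1)) := by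
      rw [Measure.real, ← ENNReal.lt_ofReal_iff_toReal_lt (measure_ne_top _ _)]
      exact hn
    have h2 : ν.real (symmDiff (Prod.mk (T^[r + n] x) ⁻¹' B) c) < 1 / (2 * ((j : ℝ) + 1)) := by
      rw [Measure.real, ← ENNReal.lt_ofReal_iff_toReal_lt (measure_ne_top _ _)]
      exact hm
    have h3 := measureReal_symmDiff_le (μ := ν) (s := Prod.mk (T^[n] x) ⁻¹' B) (t := c)
      (Prod.mk (T^[r + n] x) ⁻¹' B)
    rw [symmDiff_comm c] at h3
    have h4 : 1 / (2 * ((j : ℝ) + 1)) + 1 / (2 * ((j : ℝ) + 1)) = 1 / ((j : ℝ) + 1) := by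
      field_simp; norm_num
    linarith
  intro n m hn hm
  rcases le_total n m with h | h
  · obtain ⟨r, rfl⟩ := Nat.exists_eq_add_of_le' h
    rw [dd_symm]
    exact key n r hn hm
  · obtain ⟨r, rfl⟩ := Nat.exists_eq_add_of_le' h
    exact key m r hm hn

end Pool.Agent.H.MP_96e181_an.PD
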