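import Mathlib

/-!
# Comparison of measures by continuous functions; supports of invariant densities

Helper file for the problem MP_96e181_an.
-/

open MeasureTheory Filter Topology Set BoundedContinuousFunction
open scoped ENNReal NNReal

namespace Pool.Agent.H.MP_96e181_an.PD

/-- A finite measure whose integrals of nonnegative continuous functions are dominated is
dominated. -/
theorem le_of_forall_integral {Ω : Type*} [MeasurableSpace Ω] [TopologicalSpace Ω]
    [TopologicalSpace.PseudoMetrizableSpace Ω] [BorelSpace Ω] {η ρ : Measure Ω}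
    [IsFiniteMeasure η] [IsFiniteMeasure ρ]
    (h : ∀ f : Ω →ᵇ ℝ, (∀ x, 0 ≤ f x) → ∫ x, f x ∂η ≤ ∫ x, f x ∂ρ) : η ≤ ρ := by
  have hclosed : ∀ F : Set Ω, IsClosed F → η F ≤ ρ F := by
    intro F hF
    have hlim := HasOuterApproxClosed.tendsto_lintegral_apprSeq hF ρ
    refine ge_of_tendsto' hlim fun n => ?_
    refine (HasOuterApproxClosed.measure_le_lintegral hF η n).trans ?_
    have h1 := h ⟨⟨fun x => ((hF.apprSeq n x : ℝ≥0) : ℝ),
      Continuous.comp' NNReal.continuous_coe (hF.apprSeq n).continuous⟩,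
      (hF.apprSeq n).map_bounded'⟩ (fun x => NNReal.coe_nonneg _)
    have h2 := toReal_lintegral_coe_eq_integral (hF.apprSeq n) η
    have h3 := toReal_lintegral_coe_eq_integral (hF.apprSeq n) ρ
    rw [← ENNReal.toReal_le_toReal (lintegral_lt_top_of_nnreal η (hF.apprSeq n)).ne
      (lintegral_lt_top_of_nnreal ρ (hF.apprSeq n)).ne, h2, h3]
    exact h1
  rw [Measure.le_iff]
  intro s hs
  rw [hs.measure_eq_iSup_isClosed_of_ne_top (measure_ne_top η s)]
  refine iSup_le fun K => iSup_le fun hKs => iSup_le fun hK => ?_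
  exact (hclosed K hK).trans (measure_mono hKs)

/-- The support of an invariant absolutely continuous measure. -/
theorem exists_support_set {W : Type*} [MeasurableSpace W] {ρ : Measure W} [IsFiniteMeasure ρ]
    {T : W → W} (hT : MeasurePreserving T ρ ρ) {η : Measure W} [IsFiniteMeasure η]
    (hη : η.map T = η) (hac : η ≪ ρ) :
    ∃ B : Set W, MeasurableSet B ∧ ρ (symmDiff (T ⁻¹' B) B) = 0 ∧ η Bᶜ = 0 ∧
      ∀ C : Set W, MeasurableSet C → η C = 0 → ρ (B ∩ C) = 0 := by
  set B : Set W := {w | η.rnDeriv ρ w ≠ 0} with hB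
  have hm : Measurable (η.rnDeriv ρ) := Measure.measurable_rnDeriv _ _
  have hBm : MeasurableSet B := hm (measurableSet_singleton 0).compl
  have hd : ρ.withDensity (η.rnDeriv ρ) = η := Measure.withDensity_rnDeriv_eq η ρ hac
  have hη' : ∀ C : Set W, MeasurableSet C → η C = ∫⁻ w in C, η.rnDeriv ρ w ∂ρ := by
    intro C hC
    conv_lhs => rw [← hd]
    rw [withDensity_apply _ hC]
  have hBc : η Bᶜ = 0 := by
    rw [hη' _ hBm.compl, setLIntegral_congr_fun hBm.compl (g := fun _ => 0)]
    · simp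
    · intro w hw
      have : ¬ (η.rnDeriv ρ w ≠ 0) := hw
      exact not_not.1 this
  have hC : ∀ C : Set W, MeasurableSet C → η C = 0 → ρ (B ∩ C) = 0 := by
    intro C hCm hC0
    rw [hη' C hCm, lintegral_eq_zero_iff hm] at hC0
    have h1 : ∀ᵐ w ∂(ρ.restrict C), w ∉ B := by
      filter_upwards [hC0] with w hw hwB
      exact hwB hw
    have h2 := measure_eq_zero_iff_ae_notMem.2 h1
    rwa [Measure.restrict_apply hBm] at h2
  refine ⟨B, hBm, ?_, hBc, hC⟩
  have h1 : ρ (B ∩ (T ⁻¹' B)ᶜ) = 0 := by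
    refine hC _ (hT.measurable hBm).compl ?_
    rw [← preimage_compl, ← Measure.map_apply hT.measurable hBm.compl, hη]
    exact hBc
  have h2 : B ≤ᵐ[ρ] (T ⁻¹' B) := by
    rw [ae_le_set]
    exact h1
  have h3 : B =ᵐ[ρ] (T ⁻¹' B) :=
    ae_eq_of_ae_subset_of_measure_ge h2
      (hT.measure_preimage hBm.nullMeasurableSet).le hBm.nullMeasurableSet (measure_ne_top _ _)
  exact measure_symmDiff_eq_zero_iff.2 h3.symm

end Pool.Agent.H.MP_96e181_an.PD
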