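import Mathlib

/-!
# Averages over rectangles and averaged measures

Helper file for the problem MP_96e181_an.
-/

open MeasureTheory Filter Topology Set BoundedContinuousFunction
open scoped ENNReal NNReal

namespace Pool.Agent.H.MP_96e181_an.PD

/-- the rectangle `[a, a+L) × [b, b+M)` -/
def Q (a b L M : ℕ) : Finset (ℕ × ℕ) := Finset.Ico a (a + L) ×ˢ Finset.Ico b (b + M)

lemma card_Q (a b L M : ℕ) : (Q a b L M).card = L * M := by
  simp [Q]

lemma window_shift (a b L M : ℕ) {Φ : ℕ × ℕ → ℝ} {C : ℝ} (hΦ : ∀ z, |Φ z| ≤ C) :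
    |∑ z ∈ Q a b L M, Φ (z.1, z.2 + 1) - ∑ z ∈ Q a b L M, Φ z| ≤ 2 * C * L := by
  have hrow : ∀ m : ℕ, ∑ n ∈ Finset.Ico b (b + M), Φ (m, n + 1) -
      ∑ n ∈ Finset.Ico b (b + M), Φ (m, n) = Φ (m, b + M) - Φ (m, b) := by
    intro m
    induction M with
    | zero => simp
    | succ M ih =>
      rw [← add_assoc, Finset.sum_Ico_succ_top (by omega), Finset.sum_Ico_succ_top (by omega)]
      linarith
  unfold Q
  rw [Finset.sum_product, Finset.sum_product, ← Finset.sum_sub_distrib,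
    Finset.sum_congr rfl fun m _ => hrow m]
  refine (Finset.abs_sum_le_sum_abs _ _).trans ?_
  have : ∑ m ∈ Finset.Ico a (a + L), |Φ (m, b + M) - Φ (m, b)| ≤
      ∑ m ∈ Finset.Ico a (a + L), (2 * C) := by
    refine Finset.sum_le_sum fun m _ => ?_
    have h1 := hΦ (m, b + M)
    have h2 := hΦ (m, b)
    refine (abs_sub _ _).trans ?_
    linarith
  refine this.trans (le_of_eq ?_)
  simp
  ring

variable {ι W : Type*} [MeasurableSpace W]

/-- average of finitely many measures -/
noncomputable def am (s : Finset ι) (ρ : ι → Measure W) : Measure W :=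
  ((s.card : ℝ≥0∞))⁻¹ • ∑ i ∈ s, ρ i

lemma isProb_am {s : Finset ι} (hs : s.Nonempty) (ρ : ι → Measure W)
    [∀ i, IsProbabilityMeasure (ρ i)] : IsProbabilityMeasure (am s ρ) := by
  constructor
  unfold am
  rw [Measure.smul_apply, Measure.finsetSum_apply]
  simp only [measure_univ, Finset.sum_const, nsmul_eq_mul, mul_one, smul_eq_mul]
  refine ENNReal.inv_mul_cancel ?_ (ENNReal.natCast_ne_top _)
  simpa using hs.ne_empty

lemma am_apply (s : Finset ι) (ρ : ι → Measure W) (C : Set W) :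
    am s ρ C = ((s.card : ℝ≥0∞))⁻¹ * ∑ i ∈ s, ρ i C := by
  unfold am
  rw [Measure.smul_apply, Measure.finsetSum_apply, smul_eq_mul]

lemma integral_am (s : Finset ι) (ρ : ι → Measure W) {f : W → ℝ}
    (hf : ∀ i ∈ s, Integrable f (ρ i)) :
    ∫ w, f w ∂(am s ρ) = (∑ i ∈ s, ∫ w, f w ∂(ρ i)) / s.card := by
  unfold am
  rw [integral_smul_measure, integral_finsetSum_measure hf, ENNReal.toReal_inv,
    ENNReal.toReal_natCast, smul_eq_mul, div_eq_inv_mul]

end Pool.Agent.H.MP_96e181_an.PD
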