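import Pool.Agent.H.MP_96e181_an.pd.Main
import Pool.Agent.H.MP_96e181_an.pd.Dens
import Pool.Agent.H.MP_96e181_an.pd.Win

/-!
# Visits along sets of positive density in the semigroup

Helper file for the problem MP_96e181_an.
-/

open MeasureTheory Filter Topology Set BoundedContinuousFunction
open scoped ENNReal NNReal

namespace Pool.Agent.H.MP_96e181_an.PD

/-- the indicator sequence of the row of `A` starting at `z` -/
noncomputable def yy (A : Set (ℕ × ℕ)) (z : ℕ × ℕ) : ℕ → Bool := by
  classical exact fun j => decide ((z.1, z.2 + j) ∈ A)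

/-- the shift -/
def sh (y : ℕ → Bool) : ℕ → Bool := fun j => y (j + 1)

lemma continuous_sh : Continuous sh := continuous_pi fun j => continuous_apply (j + 1)

lemma sh_yy (A : Set (ℕ × ℕ)) (z : ℕ × ℕ) : sh (yy A z) = yy A (z.1, z.2 + 1) := by
  ext j
  simp only [sh, yy]
  rw [show z.2 + (j + 1) = z.2 + 1 + j by ring]

lemma yy_zero (A : Set (ℕ × ℕ)) (z : ℕ × ℕ) : yy A z 0 = true ↔ z ∈ A := by
  simp [yy]

/-- the action of the semigroup -/
def ac (p q : ℕ) (z : ℕ × ℕ) (x : UnitAddCircle) : UnitAddCircle := p ^ z.1 • q ^ z.2 • x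

lemma continuous_ac (p q : ℕ) (z : ℕ × ℕ) : Continuous (ac p q z) :=
  (continuous_const_smul (p ^ z.1)).comp (continuous_const_smul (q ^ z.2))

lemma ac_succ (p q : ℕ) (z : ℕ × ℕ) (x : UnitAddCircle) :
    ac p q (z.1, z.2 + 1) x = q • ac p q z x := by
  simp only [ac]
  rw [← mul_smul, ← mul_smul, ← mul_smul]
  congr 1
  ring

lemma mp_ac {p q : ℕ} {μ : Measure UnitAddCircle}
    (hμp : MeasurePreserving (fun x : UnitAddCircle => p • x) μ μ)
    (hμq : MeasurePreserving (fun x : UnitAddCircle => q • x) μ μ) (z : ℕ × ℕ) :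
    MeasurePreserving (ac p q z) μ μ := by
  have h := (hμp.iterate z.1).comp (hμq.iterate z.2)
  have e : ac p q z = (fun x : UnitAddCircle => p • x)^[z.1] ∘
      (fun x : UnitAddCircle => q • x)^[z.2] := by
    ext x
    simp only [Function.comp, iter_smul, ac]
  rw [e]
  exact h

open Classical in
/-- frequency of visits to `V` along `A` in a rectangle -/
noncomputable def freq (p q : ℕ) (A : Set (ℕ × ℕ)) (V : Set UnitAddCircle) (a b L M : ℕ)
    (x : UnitAddCircle) : ℝ :=
  (∑ z ∈ Q a b L M, if z ∈ A ∧ ac p q z x ∈ V then (1 : ℝ) else 0) / ((L : ℝ) * M)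

lemma freq_nonneg (p q : ℕ) (A : Set (ℕ × ℕ)) (V : Set UnitAddCircle) (a b L M : ℕ)
    (x : UnitAddCircle) : 0 ≤ freq p q A V a b L M x := by
  unfold freq
  refine div_nonneg (Finset.sum_nonneg fun z _ => ?_) (by positivity)
  split_ifs <;> norm_num

open Classical in
lemma freq_le_one (p q : ℕ) (A : Set (ℕ × ℕ)) (V : Set UnitAddCircle) (a b L M : ℕ)
    (x : UnitAddCircle) : freq p q A V a b L M x ≤ 1 := by
  unfold freq
  refine div_le_one_of_le₀ ?_ (by positivity)
  calc (∑ z ∈ Q a b L M, if z ∈ A ∧ ac p q z x ∈ V then (1 : ℝ) else 0)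
      ≤ ∑ z ∈ Q a b L M, (1 : ℝ) := Finset.sum_le_sum fun z _ => by split_ifs <;> norm_num
    _ = (L : ℝ) * M := by rw [Finset.sum_const, card_Q, nsmul_eq_mul, mul_one]; push_cast; ring

open Classical in
lemma measurable_term (p q : ℕ) (A : Set (ℕ × ℕ)) {V : Set UnitAddCircle} (hV : IsOpen V)
    (z : ℕ × ℕ) : Measurable fun x : UnitAddCircle =>
      (if z ∈ A ∧ ac p q z x ∈ V then (1 : ℝ) else 0) := by
  refine Measurable.ite ?_ measurable_const measurable_const
  by_cases hz : z ∈ A
  · simp only [hz, true_and]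
    exact (hV.preimage (continuous_ac p q z)).measurableSet
  · simp only [hz, false_and]
    exact MeasurableSet.empty

lemma measurable_freq (p q : ℕ) (A : Set (ℕ × ℕ)) {V : Set UnitAddCircle} (hV : IsOpen V)
    (a b L M : ℕ) : Measurable (freq p q A V a b L M) := by
  unfold freq
  exact (Finset.measurable_sum _ fun z _ => measurable_term p q A hV z).div_const _

lemma tendsto_diff {a b L M : ℕ → ℕ} (hL : ∀ k, 0 < L k) (hM0 : ∀ k, 0 < M k)
    (hM : Tendsto M atTop atTop) {Φ : ℕ × ℕ → ℝ} {C : ℝ} (hΦ : ∀ z, |Φ z| ≤ C) :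
    Tendsto (fun k => (∑ z ∈ Q (a k) (b k) (L k) (M k), Φ (z.1, z.2 + 1)) / ((L k : ℝ) * M k) -
      (∑ z ∈ Q (a k) (b k) (L k) (M k), Φ z) / ((L k : ℝ) * M k)) atTop (𝓝 0) := by
  rw [tendsto_zero_iff_norm_tendsto_zero]
  have h1 : Tendsto (fun k => 2 * C * (1 / (M k : ℝ))) atTop (𝓝 0) := by
    have := (tendsto_one_div_atTop_nhds_zero_nat (𝕜 := ℝ)).comp hM
    simpa using this.const_mul (2 * C)
  refine squeeze_zero (fun _ => norm_nonneg _) (fun k => ?_) h1
  have hLr : (0 : ℝ) < L k := by exact_mod_cast hL k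
  have hMr : (0 : ℝ) < M k := by exact_mod_cast hM0 k
  rw [← sub_div, norm_div, Real.norm_eq_abs, Real.norm_of_nonneg (by positivity),
    div_le_iff₀ (by positivity)]
  refine (window_shift _ _ _ _ hΦ).trans (le_of_eq ?_)
  field_simp

open Classical in
/-- **Visits along sets of positive density, one open set.** -/
theorem ae_not_tendsto {p q : ℕ} (hp : 2 ≤ p) (hq : 2 ≤ q)
    (hpq : Irrational (Real.log p / Real.log q)) {μ : Measure UnitAddCircle}
    [IsProbabilityMeasure μ] (hna : ∀ x, μ {x} = 0)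
    (hμp : MeasurePreserving (fun x : UnitAddCircle => p • x) μ μ)
    (hμq : MeasurePreserving (fun x : UnitAddCircle => q • x) μ μ)
    (A : Set (ℕ × ℕ)) {a b L M : ℕ → ℕ} (hL : ∀ k, 0 < L k) (hM0 : ∀ k, 0 < M k)
    (hM : Tendsto M atTop atTop) {δ : ℝ} (hδ : 0 < δ)
    (hA : ∀ k, δ * ((L k : ℝ) * M k) ≤ ∑ z ∈ Q (a k) (b k) (L k) (M k),
      (if z ∈ A then (1 : ℝ) else 0))
    {V : Set UnitAddCircle} (hV : IsOpen V) (hne : V.Nonempty) :
    ∀ᵐ x ∂μ, ¬ Tendsto (fun k => freq p q A V (a k) (b k) (L k) (M k) x) atTop (𝓝 0) := by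
  set E : Set UnitAddCircle :=
    {x | Tendsto (fun k => freq p q A V (a k) (b k) (L k) (M k) x) atTop (𝓝 0)} with hE
  have hEm : MeasurableSet E :=
    measurableSet_tendsto (𝓝 0) fun k => measurable_freq p q A hV _ _ _ _
  suffices hE0 : μ E = 0 from measure_eq_zero_iff_ae_notMem.1 hE0
  by_contra hE0
  -- the normalised restriction
  set μE : Measure UnitAddCircle := ProbabilityTheory.cond μ E with hμE
  have : IsProbabilityMeasure μE := ProbabilityTheory.cond_isProbabilityMeasure hE0
  set c : ℝ := (μ E)⁻¹.toReal with hc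
  have hc0 : 0 ≤ c := ENNReal.toReal_nonneg
  have hμEint : ∀ g : UnitAddCircle → ℝ, Integrable g μ → (∀ x, 0 ≤ g x) →
      ∫ x, g x ∂μE ≤ c * ∫ x, g x ∂μ := by
    intro g hg hg0
    rw [hμE, ProbabilityTheory.cond, integral_smul_measure, smul_eq_mul]
    exact mul_le_mul_of_nonneg_left
      (setIntegral_le_integral hg (Eventually.of_forall hg0)) hc0
  have hE1 : ∀ᵐ x ∂μE, x ∈ E := by
    rw [hμE, ProbabilityTheory.cond]
    exact Measure.ae_smul_measure (ae_restrict_mem hEm) _
  -- the averaged measures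
  have hQne : ∀ k, (Q (a k) (b k) (L k) (M k)).Nonempty := by
    intro k
    rw [← Finset.card_pos, card_Q]
    exact Nat.mul_pos (hL k) (hM0 k)
  have hQc : ∀ k, ((Q (a k) (b k) (L k) (M k)).card : ℝ) = (L k : ℝ) * M k := by
    intro k; rw [card_Q]; push_cast; ring
  have hmeas : ∀ z, Measurable fun x : UnitAddCircle => (ac p q z x, yy A z) := fun z =>
    (continuous_ac p q z).measurable.prodMk measurable_const
  have : ∀ z, IsProbabilityMeasure (μE.map fun x : UnitAddCircle => (ac p q z x, yy A z)) :=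
    fun z => Measure.isProbabilityMeasure_map (hmeas z).aemeasurable
  set νs : ℕ → ProbabilityMeasure (ℕ → Bool) := fun k =>
    ⟨am (Q (a k) (b k) (L k) (M k)) (fun z => Measure.dirac (yy A z)), isProb_am (hQne k) _⟩
    with hνs
  set ηs : ℕ → ProbabilityMeasure (UnitAddCircle × (ℕ → Bool)) := fun k =>
    ⟨am (Q (a k) (b k) (L k) (M k))
      (fun z => μE.map fun x : UnitAddCircle => (ac p q z x, yy A z)), isProb_am (hQne k) _⟩
    with hηs
  set 𝒰 : Ultrafilter ℕ := hyperfilter ℕ with h𝒰
  have h𝒰le : (𝒰 : Filter ℕ) ≤ atTop := Nat.hyperfilter_le_atTop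
  obtain ⟨ν, hν⟩ : ∃ ν, Tendsto νs 𝒰 (𝓝 ν) := ⟨_, (𝒰.map νs).le_nhds_lim⟩
  obtain ⟨η, hη⟩ : ∃ η, Tendsto ηs 𝒰 (𝓝 η) := ⟨_, (𝒰.map ηs).le_nhds_lim⟩
  have factA : ∀ g : (ℕ → Bool) →ᵇ ℝ, Tendsto (fun k =>
      (∑ z ∈ Q (a k) (b k) (L k) (M k), g (yy A z)) / ((L k : ℝ) * M k)) 𝒰
      (𝓝 (∫ y, g y ∂(ν : Measure (ℕ → Bool)))) := by
    intro g
    have := ProbabilityMeasure.tendsto_iff_forall_integral_tendsto.1 hν g
    refine this.congr fun k => ?_
    simp only [hνs, ProbabilityMeasure.coe_mk]
    rw [integral_am _ _ (fun z _ => g.integrable _), hQc]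
    congr 1
    exact Finset.sum_congr rfl fun z _ => integral_dirac _ _
  have factB : ∀ f : (UnitAddCircle × (ℕ → Bool)) →ᵇ ℝ, Tendsto (fun k =>
      (∑ z ∈ Q (a k) (b k) (L k) (M k), ∫ x, f (ac p q z x, yy A z) ∂μE) / ((L k : ℝ) * M k)) 𝒰
      (𝓝 (∫ w, f w ∂(η : Measure (UnitAddCircle × (ℕ → Bool))))) := by
    intro f
    have := ProbabilityMeasure.tendsto_iff_forall_integral_tendsto.1 hη f
    refine this.congr fun k => ?_
    simp only [hηs, ProbabilityMeasure.coe_mk]
    rw [integral_am _ _ (fun z _ => f.integrable _), hQc]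
    congr 1
    exact Finset.sum_congr rfl fun z _ =>
      integral_map (hmeas z).aemeasurable f.continuous.aestronglyMeasurable
  -- invariance of `ν`
  have hSν : MeasurePreserving sh (ν : Measure (ℕ → Bool)) (ν : Measure (ℕ → Bool)) := by
    refine ⟨continuous_sh.measurable, ?_⟩
    have : IsProbabilityMeasure ((ν : Measure (ℕ → Bool)).map sh) :=
      Measure.isProbabilityMeasure_map continuous_sh.measurable.aemeasurable
    refine ext_of_forall_integral_eq_of_IsFiniteMeasure fun g => ?_
    rw [integral_map continuous_sh.measurable.aemeasurable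
      g.continuous.aestronglyMeasurable]
    have h1 := factA (g.compContinuous ⟨sh, continuous_sh⟩)
    have h2 := factA g
    have h3 := (tendsto_diff (a := a) (b := b) hL hM0 hM (Φ := fun z => g (yy A z)) (C := ‖g‖)
      (fun z => g.norm_coe_le_norm _)).mono_left h𝒰le
    have h4 := h2.add h3
    rw [add_zero] at h4
    refine tendsto_nhds_unique (h1.congr fun k => ?_) h4
    simp only [compContinuous_apply, ContinuousMap.coe_mk, sh_yy]
    ring
  -- invariance of `η`
  set TT : UnitAddCircle × (ℕ → Bool) → UnitAddCircle × (ℕ → Bool) :=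
    Prod.map (fun x : UnitAddCircle => q • x) sh with hTT
  have hTTc : Continuous TT := (continuous_const_smul q).prodMap continuous_sh
  have hη' : (η : Measure (UnitAddCircle × (ℕ → Bool))).map TT = η := by
    have : IsProbabilityMeasure ((η : Measure (UnitAddCircle × (ℕ → Bool))).map TT) :=
      Measure.isProbabilityMeasure_map hTTc.measurable.aemeasurable
    refine ext_of_forall_integral_eq_of_IsFiniteMeasure fun f => ?_
    rw [integral_map hTTc.measurable.aemeasurable f.continuous.aestronglyMeasurable]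
    have h1 := factB (f.compContinuous ⟨TT, hTTc⟩)
    have h2 := factB f
    have h3 := (tendsto_diff (a := a) (b := b) hL hM0 hM
      (Φ := fun z => ∫ x, f (ac p q z x, yy A z) ∂μE) (C := ‖f‖) (fun z => by
        rw [← Real.norm_eq_abs]
        refine (norm_integral_le_of_norm_le_const
          (Eventually.of_forall fun x => f.norm_coe_le_norm _)).trans (le_of_eq ?_)
        simp)).mono_left h𝒰le
    have h4 := h2.add h3
    rw [add_zero] at h4
    refine tendsto_nhds_unique (h1.congr fun k => ?_) h4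
    simp only [compContinuous_apply, ContinuousMap.coe_mk, hTT, Prod.map_apply, sh_yy]
    have : ∀ z : ℕ × ℕ, ∫ x, f (q • ac p q z x, yy A (z.1, z.2 + 1)) ∂μE =
        ∫ x, f (ac p q (z.1, z.2 + 1) x, yy A (z.1, z.2 + 1)) ∂μE := by
      intro z
      simp only [ac_succ]
    rw [Finset.sum_congr rfl fun z _ => this z]
    ring
  -- domination
  have hle : (η : Measure (UnitAddCircle × (ℕ → Bool))) ≤
      ENNReal.ofReal c • (μ.prod (ν : Measure (ℕ → Bool))) := by
    have : IsFiniteMeasure (ENNReal.ofReal c • (μ.prod (ν : Measure (ℕ → Bool)))) :=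
      Measure.smul_finite _ ENNReal.ofReal_ne_top
    refine le_of_forall_integral fun f hf => ?_
    rw [integral_smul_measure, ENNReal.toReal_ofReal hc0, smul_eq_mul]
    have hFc : Continuous fun y : ℕ → Bool => ∫ x, f (x, y) ∂μ := by
      refine continuous_of_dominated (bound := fun _ => ‖f‖) (fun y => ?_) (fun y => ?_)
        (integrable_const _) (Eventually.of_forall fun x => ?_)
      · exact (f.continuous.comp (continuous_id.prodMk continuous_const)).aestronglyMeasurable
      · exact Eventually.of_forall fun x => f.norm_coe_le_norm _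
      · exact f.continuous.comp (continuous_const.prodMk continuous_id)
    set F : (ℕ → Bool) →ᵇ ℝ := BoundedContinuousFunction.mkOfCompact ⟨_, hFc⟩ with hF
    have h1 := (factA F).const_mul c
    have h2 : ∫ y, F y ∂(ν : Measure (ℕ → Bool)) =
        ∫ w, f w ∂(μ.prod (ν : Measure (ℕ → Bool))) := by
      rw [integral_prod_symm _ (f.integrable _)]
      rfl
    rw [h2] at h1
    refine le_of_tendsto_of_tendsto' (factB f) h1 fun k => ?_
    rw [← mul_div_assoc, Finset.mul_sum]
    refine div_le_div_of_nonneg_right (Finset.sum_le_sum fun z _ => ?_) (by positivity)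
    have hcont : Continuous fun x : UnitAddCircle => f (x, yy A z) :=
      f.continuous.comp (continuous_id.prodMk continuous_const)
    have h3 := hμEint (fun x => f (ac p q z x, yy A z))
      (Integrable.of_bound (hcont.comp (continuous_ac p q z)).aestronglyMeasurable ‖f‖
        (Eventually.of_forall fun x => f.norm_coe_le_norm _)) (fun x => hf _)
    have h4 : ∫ x, f (ac p q z x, yy A z) ∂μ = F (yy A z) := by
      have h5 := (mp_ac hμp hμq z)
      have h6 := integral_map (μ := μ) (φ := ac p q z) h5.measurable.aemeasurable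
        (f := fun x => f (x, yy A z)) (by
          rw [h5.map_eq]
          exact hcont.aestronglyMeasurable)
      rw [h5.map_eq] at h6
      exact h6.symm
    rw [h4] at h3
    exact h3
  have hac : (η : Measure (UnitAddCircle × (ℕ → Bool))) ≪ μ.prod (ν : Measure (ℕ → Bool)) := by
    refine (Measure.absolutelyContinuous_of_le hle).trans ?_
    exact Measure.smul_absolutelyContinuous
  -- no mass over `V` and `y 0 = true`
  set G : Set (UnitAddCircle × (ℕ → Bool)) := V ×ˢ {y | y 0 = true} with hG
  have hone : IsOpen {y : ℕ → Bool | y 0 = true} := by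
    have h1 : Continuous fun y : ℕ → Bool => y 0 := continuous_apply 0
    exact (isOpen_discrete ({true} : Set Bool)).preimage h1
  have hGo : IsOpen G := hV.prod hone
  have hGreal : ∀ k, (ηs k : Measure (UnitAddCircle × (ℕ → Bool))).real G =
      ∫ x, freq p q A V (a k) (b k) (L k) (M k) x ∂μE := by
    intro k
    rw [← integral_indicator_one hGo.measurableSet]
    change ∫ w, G.indicator (fun _ => (1 : ℝ)) w ∂(ηs k : Measure (UnitAddCircle × (ℕ → Bool))) = _
    simp only [hηs, ProbabilityMeasure.coe_mk]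
    rw [integral_am _ _ (fun z _ => (integrable_const (1 : ℝ)).indicator hGo.measurableSet),
      hQc]
    unfold freq
    rw [integral_div, integral_finsetSum]
    · congr 1
      refine Finset.sum_congr rfl fun z _ => ?_
      rw [integral_map (hmeas z).aemeasurable
        ((measurable_const.indicator hGo.measurableSet).aestronglyMeasurable)]
      refine integral_congr_ae (Eventually.of_forall fun x => ?_)
      have hmem : (ac p q z x, yy A z) ∈ G ↔ z ∈ A ∧ ac p q z x ∈ V := by
        rw [hG, mem_prod, mem_ofPred_eq, yy_zero, and_comm]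
      show G.indicator (fun _ => (1 : ℝ)) (ac p q z x, yy A z) =
        if z ∈ A ∧ ac p q z x ∈ V then (1 : ℝ) else 0
      by_cases h1 : z ∈ A ∧ ac p q z x ∈ V
      · rw [Set.indicator_of_mem (hmem.2 h1), if_pos h1]
      · rw [Set.indicator_of_notMem (fun h => h1 (hmem.1 h)), if_neg h1]
    · intro z _
      refine Integrable.of_bound (measurable_term p q A hV z).aestronglyMeasurable 1
        (Eventually.of_forall fun x => ?_)
      split_ifs <;> simp
  have hGlim : Tendsto (fun k => (ηs k : Measure (UnitAddCircle × (ℕ → Bool))) G) 𝒰 (𝓝 0) := by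
    have h1 : Tendsto (fun k => ∫ x, freq p q A V (a k) (b k) (L k) (M k) x ∂μE) atTop
        (𝓝 (∫ x, (0 : ℝ) ∂μE)) := by
      refine tendsto_integral_of_dominated_convergence (fun _ => (1 : ℝ))
        (fun k => (measurable_freq p q A hV _ _ _ _).aestronglyMeasurable)
        (integrable_const _) (fun k => Eventually.of_forall fun x => ?_) ?_
      · rw [Real.norm_of_nonneg (freq_nonneg _ _ _ _ _ _ _ _ _)]
        exact freq_le_one _ _ _ _ _ _ _ _ _
      · filter_upwards [hE1] with x hx using hx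
    rw [integral_zero] at h1
    have h2 := ENNReal.tendsto_ofReal (h1.mono_left h𝒰le)
    rw [ENNReal.ofReal_zero] at h2
    refine h2.congr fun k => ?_
    rw [← hGreal k, Measure.real, ENNReal.ofReal_toReal (measure_ne_top _ _)]
  have hηG : (η : Measure (UnitAddCircle × (ℕ → Bool))) G = 0 := by
    have h1 := ProbabilityMeasure.le_liminf_measure_open_of_tendsto hη hGo
    rw [hGlim.liminf_eq] at h1
    exact le_antisymm h1 bot_le
  -- positive mass over `y 0 = true`
  have hf1c : Continuous fun w : UnitAddCircle × (ℕ → Bool) =>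
      (if w.2 0 = true then (1 : ℝ) else 0) := by
    have h1 : Continuous fun t : Bool => (if t = true then (1 : ℝ) else 0) :=
      continuous_of_discreteTopology
    exact h1.comp ((continuous_apply 0).comp continuous_snd)
  set f1 : (UnitAddCircle × (ℕ → Bool)) →ᵇ ℝ := BoundedContinuousFunction.mkOfCompact ⟨_, hf1c⟩
    with hf1
  have hf1int : δ ≤ ∫ w, f1 w ∂(η : Measure (UnitAddCircle × (ℕ → Bool))) := by
    refine ge_of_tendsto' (factB f1) fun k => ?_
    have hpos : (0 : ℝ) < (L k : ℝ) * M k := by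
      have h1 : (0 : ℝ) < L k := by exact_mod_cast hL k
      have h2 : (0 : ℝ) < M k := by exact_mod_cast hM0 k
      positivity
    rw [le_div_iff₀ hpos]
    refine (hA k).trans (le_of_eq (Finset.sum_congr rfl fun z _ => ?_))
    have h1 : ∀ x, f1 (ac p q z x, yy A z) = if z ∈ A then (1 : ℝ) else 0 := by
      intro x
      simp only [hf1, mkOfCompact_apply, ContinuousMap.coe_mk, yy_zero]
    simp only [h1]
    simp
  -- the invariant set
  have hT' : MeasurePreserving TT (μ.prod (ν : Measure (ℕ → Bool)))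
      (μ.prod (ν : Measure (ℕ → Bool))) := hμq.prod hSν
  obtain ⟨B, hBm, hBinv, hBc, hBC⟩ := exists_support_set hT' hη' hac
  have hfib := fibre_full_support hp hq hpq hna hμp hμq hSν hBm hBinv hV hne
  have hBG : (μ.prod (ν : Measure (ℕ → Bool))) (B ∩ G) = 0 := hBC G hGo.measurableSet hηG
  have hBG' : ∀ᵐ y ∂(ν : Measure (ℕ → Bool)), μ ((fun x => (x, y)) ⁻¹' (B ∩ G)) = 0 := by
    rw [Measure.prod_apply_symm (hBm.inter hGo.measurableSet),
      lintegral_eq_zero_iff (measurable_measure_prodMk_right (hBm.inter hGo.measurableSet))] at hBG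
    exact hBG
  set F1 : Set (UnitAddCircle × (ℕ → Bool)) := univ ×ˢ {y | y 0 = true} with hF1
  have hF1m : MeasurableSet F1 := MeasurableSet.univ.prod hone.measurableSet
  have hBF : (μ.prod (ν : Measure (ℕ → Bool))) (B ∩ F1) = 0 := by
    rw [Measure.prod_apply_symm (hBm.inter hF1m),
      lintegral_eq_zero_iff (measurable_measure_prodMk_right (hBm.inter hF1m))]
    filter_upwards [hfib, hBG'] with y hy1 hy2
    show μ ((fun x => (x, y)) ⁻¹' (B ∩ F1)) = 0
    by_cases hy : y 0 = true
    · have h1 : μ {x | (x, y) ∈ B ∧ x ∈ V} = 0 := by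
        convert hy2 using 2
        ext x
        simp [hG, hy]
      have h2 : μ {x | (x, y) ∈ B} = 0 := by
        by_contra hcon
        exact (hy1 hcon).ne' h1
      refine measure_mono_null ?_ h2
      intro x hx
      exact hx.1
    · have : (fun x => (x, y)) ⁻¹' (B ∩ F1) = ∅ := by
        ext x
        simp [hF1, hy]
      rw [this, measure_empty]
  have hηF : (η : Measure (UnitAddCircle × (ℕ → Bool))) F1 = 0 := by
    have h1 : (η : Measure (UnitAddCircle × (ℕ → Bool))) (B ∩ F1) = 0 := hac hBF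
    have h2 : F1 ⊆ (B ∩ F1) ∪ Bᶜ := by
      intro w hw
      by_cases hwB : w ∈ B
      · exact Or.inl ⟨hwB, hw⟩
      · exact Or.inr hwB
    refine measure_mono_null h2 (measure_union_null h1 hBc)
  have hf1zero : ∫ w, f1 w ∂(η : Measure (UnitAddCircle × (ℕ → Bool))) = 0 := by
    have hae : ∀ᵐ w ∂(η : Measure (UnitAddCircle × (ℕ → Bool))), f1 w = 0 := by
      have h1 : ∀ᵐ w ∂(η : Measure (UnitAddCircle × (ℕ → Bool))), w ∉ F1 :=
        measure_eq_zero_iff_ae_notMem.1 hηF
      filter_upwards [h1] with w hw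
      have hw' : ¬ (w.2 0 = true) := fun h => hw ⟨trivial, h⟩
      simp only [hf1, mkOfCompact_apply, ContinuousMap.coe_mk, if_neg hw']
    rw [integral_congr_ae hae, integral_zero]
  linarith

end Pool.Agent.H.MP_96e181_an.PD
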