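import Pool.Agent.H.MP_96e181_an.pd.Corr

/-!
# General rectangles and products

Helper file for the problem MP_96e181_an.
-/

open MeasureTheory Filter Topology Set

namespace Pool.Agent.H.MP_96e181_an.PD

open Classical in
/-- density of `A` in a rectangle -/
noncomputable def dens (A : Set (ℕ × ℕ)) (a b L M : ℕ) : ℝ :=
  (∑ z ∈ Q a b L M, if z ∈ A then (1 : ℝ) else 0) / ((L : ℝ) * M)

lemma dens_nonneg (A : Set (ℕ × ℕ)) (a b L M : ℕ) : 0 ≤ dens A a b L M := by
  unfold dens
  refine div_nonneg (Finset.sum_nonneg fun z _ => ?_) (by positivity)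
  split_ifs <;> norm_num

lemma dens_mono {A B : Set (ℕ × ℕ)} (h : A ⊆ B) (a b L M : ℕ) :
    dens A a b L M ≤ dens B a b L M := by
  unfold dens
  refine div_le_div_of_nonneg_right (Finset.sum_le_sum fun z _ => ?_) (by positivity)
  by_cases hz : z ∈ A
  · simp [hz, h hz]
  · rw [if_neg hz]
    split_ifs <;> norm_num

lemma freq_eq_dens (p q : ℕ) (A : Set (ℕ × ℕ)) (V : Set UnitAddCircle) (a b L M : ℕ)
    (x : UnitAddCircle) :
    freq p q A V a b L M x = dens {z | z ∈ A ∧ ac p q z x ∈ V} a b L M := by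
  unfold freq dens
  congr 1
  refine Finset.sum_congr rfl fun z _ => ?_
  by_cases h : z ∈ A ∧ ac p q z x ∈ V
  · rw [if_pos h, if_pos (show z ∈ {z | z ∈ A ∧ ac p q z x ∈ V} from h)]
  · rw [if_neg h, if_neg (show z ∉ {z | z ∈ A ∧ ac p q z x ∈ V} from h)]

lemma dens_swap (A : Set (ℕ × ℕ)) (a b L M : ℕ) :
    dens (Prod.swap ⁻¹' A) b a M L = dens A a b L M := by
  unfold dens
  rw [mul_comm (M : ℝ) L]
  congr 1
  refine Finset.sum_equiv (Equiv.prodComm ℕ ℕ) (fun z => ?_) (fun z _ => rfl)
  simp only [Q, Finset.mem_product, Finset.mem_Ico, Equiv.prodComm_apply, Prod.fst_swap,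
    Prod.snd_swap]
  tauto

/-- positive upper density -/
def Pos (a b L M : ℕ → ℕ) (A : Set (ℕ × ℕ)) : Prop :=
  ¬ Tendsto (fun k => dens A (a k) (b k) (L k) (M k)) atTop (𝓝 0)

lemma Pos.mono {a b L M : ℕ → ℕ} {A B : Set (ℕ × ℕ)} (h : Pos a b L M A) (hAB : A ⊆ B) :
    Pos a b L M B := fun hB => h (squeeze_zero (fun _ => dens_nonneg _ _ _ _ _)
      (fun _ => dens_mono hAB _ _ _ _) hB)

lemma Pos.exists_freq {a b L M : ℕ → ℕ} {A : Set (ℕ × ℕ)} (h : Pos a b L M A) :
    ∃ δ : ℝ, 0 < δ ∧ ∃ᶠ k in atTop, δ ≤ dens A (a k) (b k) (L k) (M k) := by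
  by_contra hcon
  push Not at hcon
  apply h
  rw [Metric.tendsto_atTop]
  intro ε hε
  obtain ⟨N, hN⟩ := eventually_atTop.1 (hcon ε hε)
  refine ⟨N, fun n hn => ?_⟩
  rw [dist_zero_right, Real.norm_of_nonneg (dens_nonneg _ _ _ _ _)]
  exact hN n hn

lemma pos_of_freq {a b L M : ℕ → ℕ} {A : Set (ℕ × ℕ)} {δ : ℝ} (hδ : 0 < δ)
    (h : ∃ᶠ k in atTop, δ ≤ dens A (a k) (b k) (L k) (M k)) : Pos a b L M A := by
  intro hlim
  have h1 := hlim.eventually_lt_const hδ
  obtain ⟨k, hk1, hk2⟩ := (h.and_eventually h1).exists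
  linarith

/-- **Visits along sets of positive upper density along general rectangles, one open set.** -/
theorem ae_pos {p q : ℕ} (hp : 2 ≤ p) (hq : 2 ≤ q)
    (hpq : Irrational (Real.log p / Real.log q)) {μ : Measure UnitAddCircle}
    [IsProbabilityMeasure μ] (hna : ∀ x, μ {x} = 0)
    (hμp : MeasurePreserving (fun x : UnitAddCircle => p • x) μ μ)
    (hμq : MeasurePreserving (fun x : UnitAddCircle => q • x) μ μ)
    {A : Set (ℕ × ℕ)} {a b L M : ℕ → ℕ} (hQ : Tendsto (fun k => L k * M k) atTop atTop)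
    (hA : Pos a b L M A) {V : Set UnitAddCircle} (hV : IsOpen V) (hne : V.Nonempty) :
    ∀ᵐ x ∂μ, Pos a b L M {z | z ∈ A ∧ ac p q z x ∈ V} := by
  classical
  obtain ⟨δ, hδ, hfreq⟩ := hA.exists_freq
  by_cases hcase : ∀ n : ℕ, ∃ᶠ k in atTop, δ ≤ dens A (a k) (b k) (L k) (M k) ∧ 0 < L k ∧
      n + 1 ≤ M k
  · obtain ⟨φ, hφ, hP⟩ := extraction_forall_of_frequently hcase
    have hM : Tendsto (fun k => M (φ k)) atTop atTop :=
      tendsto_atTop_mono (fun n => (Nat.le_succ n).trans (hP n).2.2) tendsto_id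
    have hmain := ae_not_tendsto hp hq hpq hna hμp hμq A (a := fun k => a (φ k))
      (b := fun k => b (φ k)) (L := fun k => L (φ k)) (M := fun k => M (φ k))
      (fun k => (hP k).2.1) (fun k => (Nat.succ_pos k).trans_le (hP k).2.2) hM hδ (fun k => by
        have h1 := (hP k).1
        have h2 : (0 : ℝ) < L (φ k) := by exact_mod_cast (hP k).2.1
        have h3 : (0 : ℝ) < M (φ k) := by
          exact_mod_cast (Nat.succ_pos k).trans_le (hP k).2.2
        unfold dens at h1
        rwa [le_div_iff₀ (by positivity)] at h1) hV hne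
    filter_upwards [hmain] with x hx hlim
    refine hx ((hlim.comp hφ.tendsto_atTop).congr fun k => ?_)
    simp only [Function.comp]
    rw [freq_eq_dens]
  · push Not at hcase
    obtain ⟨n0, hn0⟩ := hcase
    have hcase' : ∀ n : ℕ, ∃ᶠ k in atTop, δ ≤ dens A (a k) (b k) (L k) (M k) ∧ 0 < M k ∧
        n + 1 ≤ L k := by
      intro n
      have h1 := hQ.eventually_ge_atTop ((n + 1) * (n0 + 1) + 1)
      refine ((hfreq.and_eventually (hn0.and h1))).mono ?_
      rintro k ⟨hk1, hk2, hk3⟩
      have hpos : 0 < L k * M k := by omega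
      have hLpos : 0 < L k := Nat.pos_of_mul_pos_right hpos
      have hMpos : 0 < M k := Nat.pos_of_mul_pos_left hpos
      have hMlt : M k < n0 + 1 := hk2 hk1 hLpos
      refine ⟨hk1, hMpos, ?_⟩
      by_contra hcon
      have hLlt : L k ≤ n := by omega
      have : L k * M k ≤ (n + 1) * (n0 + 1) := Nat.mul_le_mul (by omega) hMlt.le
      omega
    obtain ⟨φ, hφ, hP⟩ := extraction_forall_of_frequently hcase'
    have hL : Tendsto (fun k => L (φ k)) atTop atTop :=
      tendsto_atTop_mono (fun n => (Nat.le_succ n).trans (hP n).2.2) tendsto_id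
    have hqp : Irrational (Real.log q / Real.log p) := by
      rw [← inv_div]
      exact irrational_inv_iff.2 hpq
    have hmain := ae_not_tendsto hq hp hqp hna hμq hμp (Prod.swap ⁻¹' A)
      (a := fun k => b (φ k)) (b := fun k => a (φ k)) (L := fun k => M (φ k))
      (M := fun k => L (φ k))
      (fun k => (hP k).2.1) (fun k => (Nat.succ_pos k).trans_le (hP k).2.2) hL hδ (fun k => by
        have h1 := (hP k).1
        have h2 : (0 : ℝ) < M (φ k) := by exact_mod_cast (hP k).2.1
        have h3 : (0 : ℝ) < L (φ k) := by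
          exact_mod_cast (Nat.succ_pos k).trans_le (hP k).2.2
        rw [← dens_swap] at h1
        unfold dens at h1
        rwa [le_div_iff₀ (by positivity)] at h1) hV hne
    filter_upwards [hmain] with x hx hlim
    apply hx
    refine (hlim.comp hφ.tendsto_atTop).congr fun k => ?_
    simp only [Function.comp]
    rw [freq_eq_dens, ← dens_swap]
    congr 1
    ext z
    simp only [mem_preimage, mem_ofPred_eq, ac, Prod.fst_swap, Prod.snd_swap]
    rw [smul_comm]

/-- the diagonal action of the semigroup on the torus -/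
def acd {d : ℕ} (p q : Fin d → ℕ) (z : ℕ × ℕ) (x : Fin d → UnitAddCircle) :
    Fin d → UnitAddCircle := fun i => p i ^ z.1 • q i ^ z.2 • x i

lemma continuous_acd {d : ℕ} (p q : Fin d → ℕ) (z : ℕ × ℕ) : Continuous (acd p q z) :=
  continuous_pi fun i => (continuous_ac (p i) (q i) z).comp (continuous_apply i)

lemma measurableSet_pos {X : Type*} [MeasurableSpace X] (a b L M : ℕ → ℕ)
    {A : X → Set (ℕ × ℕ)} (hA : ∀ z, MeasurableSet {x | z ∈ A x}) :
    MeasurableSet {x | Pos a b L M (A x)} := by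
  classical
  have h1 : MeasurableSet
      {x | Tendsto (fun k => dens (A x) (a k) (b k) (L k) (M k)) atTop (𝓝 0)} := by
    refine measurableSet_tendsto (𝓝 0) fun k => ?_
    unfold dens
    refine (Finset.measurable_sum _ fun z _ => ?_).div_const _
    exact Measurable.ite (hA z) measurable_const measurable_const
  exact h1.compl

/-- **Visits along sets of positive upper density in products.** -/
theorem pos_pi (a b L M : ℕ → ℕ) (hQ : Tendsto (fun k => L k * M k) atTop atTop)
    {A : Set (ℕ × ℕ)} (hA : Pos a b L M A) :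
    ∀ (d : ℕ) (p q : Fin d → ℕ), (∀ i, 2 ≤ p i) → (∀ i, 2 ≤ q i) →
    (∀ i, Irrational (Real.log (p i : ℝ) / Real.log (q i : ℝ))) →
    ∀ μ : Fin d → Measure UnitAddCircle, (∀ i, IsProbabilityMeasure (μ i)) →
      (∀ i x, μ i {x} = 0) →
      (∀ i, MeasurePreserving (fun x : UnitAddCircle => p i • x) (μ i) (μ i)) →
      (∀ i, MeasurePreserving (fun x : UnitAddCircle => q i • x) (μ i) (μ i)) →
      ∀ᵐ x ∂(Measure.pi μ), ∀ V : Set (Fin d → UnitAddCircle), IsOpen V → V.Nonempty →
        Pos a b L M {z | z ∈ A ∧ acd p q z x ∈ V} := by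
  intro d
  induction d with
  | zero =>
    intro p q _ _ _ μ _ _ _ _
    refine Eventually.of_forall fun x V _ hne => ?_
    have hV : V = univ := by
      obtain ⟨v, hv⟩ := hne
      refine eq_univ_of_forall fun w => ?_
      rwa [Subsingleton.elim w v]
    refine hA.mono fun z hz => ⟨hz, ?_⟩
    rw [hV]
    trivial
  | succ d ih =>
    intro p q hp hq hirr μ hμ hna hμp hμq
    have ih' := ih (fun j => p ((0 : Fin (d + 1)).succAbove j))
      (fun j => q ((0 : Fin (d + 1)).succAbove j)) (fun j => hp _) (fun j => hq _)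
      (fun j => hirr _) (fun j => μ ((0 : Fin (d + 1)).succAbove j)) (fun j => hμ _)
      (fun j => hna _) (fun j => hμp _) (fun j => hμq _)
    set p' : Fin d → ℕ := fun j => p ((0 : Fin (d + 1)).succAbove j) with hp'
    set q' : Fin d → ℕ := fun j => q ((0 : Fin (d + 1)).succAbove j) with hq'
    set ν : Measure (Fin d → UnitAddCircle) :=
      Measure.pi (fun j => μ ((0 : Fin (d + 1)).succAbove j)) with hν
    have hB1 := TopologicalSpace.isBasis_countableBasis UnitAddCircle
    have hB2 := TopologicalSpace.isBasis_countableBasis (Fin d → UnitAddCircle)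
    -- the product statement, for basic open sets
    have hprod : ∀ᵐ w ∂(ν.prod (μ 0)),
        ∀ V' ∈ TopologicalSpace.countableBasis (Fin d → UnitAddCircle),
        ∀ V0 ∈ TopologicalSpace.countableBasis UnitAddCircle,
        Pos a b L M {z | (z ∈ A ∧ acd p' q' z w.1 ∈ V') ∧ ac (p 0) (q 0) z w.2 ∈ V0} := by
      rw [ae_ball_iff (TopologicalSpace.countable_countableBasis _)]
      intro V' hV'
      rw [ae_ball_iff (TopologicalSpace.countable_countableBasis _)]
      intro V0 hV0
      have hm : MeasurableSet {w : (Fin d → UnitAddCircle) × UnitAddCircle |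
          Pos a b L M {z | (z ∈ A ∧ acd p' q' z w.1 ∈ V') ∧ ac (p 0) (q 0) z w.2 ∈ V0}} := by
        refine measurableSet_pos a b L M (A := fun w : (Fin d → UnitAddCircle) × UnitAddCircle =>
          {z | (z ∈ A ∧ acd p' q' z w.1 ∈ V') ∧ ac (p 0) (q 0) z w.2 ∈ V0}) fun z => ?_
        have h1 : MeasurableSet {w : (Fin d → UnitAddCircle) × UnitAddCircle |
            acd p' q' z w.1 ∈ V'} :=
          ((hB2.isOpen hV').preimage ((continuous_acd p' q' z).comp continuous_fst)).measurableSet
        have h2 : MeasurableSet {w : (Fin d → UnitAddCircle) × UnitAddCircle |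
            ac (p 0) (q 0) z w.2 ∈ V0} :=
          ((hB1.isOpen hV0).preimage
            ((continuous_ac (p 0) (q 0) z).comp continuous_snd)).measurableSet
        by_cases hz : z ∈ A
        · simp only [mem_ofPred_eq, hz, true_and]
          exact h1.inter h2
        · simp only [mem_ofPred_eq, hz, false_and]
          exact MeasurableSet.empty
      rw [Measure.ae_prod_iff_ae_ae hm]
      filter_upwards [ih'] with x' hx'
      have h1 := hx' V' (hB2.isOpen hV') (TopologicalSpace.nonempty_of_mem_countableBasis hV')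
      have := hμ 0
      exact ae_pos (hp 0) (hq 0) (hirr 0) (hna 0) (hμp 0) (hμq 0) hQ h1 (hB1.isOpen hV0)
        (TopologicalSpace.nonempty_of_mem_countableBasis hV0)
    have hprod' : ∀ᵐ w ∂((μ 0).prod ν),
        ∀ V' ∈ TopologicalSpace.countableBasis (Fin d → UnitAddCircle),
        ∀ V0 ∈ TopologicalSpace.countableBasis UnitAddCircle,
        Pos a b L M {z | (z ∈ A ∧ acd p' q' z w.2 ∈ V') ∧ ac (p 0) (q 0) z w.1 ∈ V0} := by
      have hsw := Measure.measurePreserving_swap (μ := μ 0) (ν := ν)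
      exact hsw.quasiMeasurePreserving.ae hprod
    have hpi := (measurePreserving_piFinSuccAbove μ 0).quasiMeasurePreserving.ae hprod'
    filter_upwards [hpi] with x hx V hV hne
    set g : UnitAddCircle × (Fin d → UnitAddCircle) → (Fin (d + 1) → UnitAddCircle) :=
      fun w => Fin.cons w.1 w.2 with hg
    have hgc : Continuous g := by
      refine continuous_pi fun i => ?_
      refine Fin.cases ?_ (fun j => ?_) i
      · simp only [hg, Fin.cons_zero]
        exact continuous_fst
      · simp only [hg, Fin.cons_succ]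
        exact (continuous_apply j).comp continuous_snd
    obtain ⟨v, hv⟩ := hne
    have hgv : g (v 0, fun j => v j.succ) = v := by
      ext i
      refine Fin.cases ?_ (fun j => ?_) i
      · simp [hg]
      · simp [hg]
    have hopen : IsOpen (g ⁻¹' V) := hV.preimage hgc
    obtain ⟨U0, U', hU0, hU', hv0, hv', hsub⟩ := isOpen_prod_iff.1 hopen (v 0)
      (fun j => v j.succ) (by rw [mem_preimage, hgv]; exact hv)
    obtain ⟨V0, hV0, hvV0, hV0U⟩ := hB1.exists_subset_of_mem_open hv0 hU0
    obtain ⟨V', hV', hvV', hV'U⟩ := hB2.exists_subset_of_mem_open hv' hU'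
    have h1 := hx V' hV' V0 hV0
    refine h1.mono ?_
    rintro z ⟨⟨hzA, hz'⟩, hz0⟩
    refine ⟨hzA, ?_⟩
    have h2 : (ac (p 0) (q 0) z (x 0), acd p' q' z (fun j => x ((0 : Fin (d + 1)).succAbove j)))
        ∈ g ⁻¹' V := hsub ⟨hV0U hz0, hV'U hz'⟩
    have h3 : g (ac (p 0) (q 0) z (x 0),
        acd p' q' z (fun j => x ((0 : Fin (d + 1)).succAbove j))) = acd p q z x := by
      ext i
      refine Fin.cases ?_ (fun j => ?_) i
      · simp [hg, acd, ac]
      · simp [hg, acd, hp', hq']
    rw [mem_preimage, h3] at h2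
    exact h2

end Pool.Agent.H.MP_96e181_an.PD
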