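import Mathlib

/-!
# Lebesgue generic points along an infinite set of times

Helper file for the problem MP_96e181_an.
-/

open MeasureTheory Filter Topology Set

namespace Pool.Agent.H.MP_96e181_an.PD

/-- the normalised Haar measure of the circle -/
noncomputable abbrev haar : Measure UnitAddCircle := AddCircle.haarAddCircle

lemma fourier_pow (q n : ℕ) (k : ℤ) (s : UnitAddCircle) :
    fourier k (q ^ n • s) = fourier (k * q ^ n) s := by
  rw [fourier_apply, fourier_apply]
  congr 1
  have : (q ^ n • s : UnitAddCircle) = ((q ^ n : ℕ) : ℤ) • s := by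
    rw [natCast_zsmul]
  rw [this, ← mul_smul]
  push_cast
  rfl

lemma rl {N : Set UnitAddCircle} (hN : MeasurableSet N) {q : ℕ} (hq : 2 ≤ q) {k : ℤ}
    (hk : k ≠ 0) :
    Tendsto (fun n : ℕ => ∫ s in N, fourier (k * q ^ n) s ∂haar) atTop (𝓝 0) := by
  set f : Lp ℂ 2 haar := indicatorConstLp 2 hN (measure_ne_top haar N) (1 : ℂ) with hf
  have hsum : Summable fun i : ℤ => ‖fourierCoeff f i‖ ^ 2 := (hasSum_sq_fourierCoeff f).summable
  have h0 : Tendsto (fun i : ℤ => ‖fourierCoeff f i‖ ^ 2) cofinite (𝓝 0) :=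
    hsum.tendsto_cofinite_zero
  have hcoef : ∀ i : ℤ, fourierCoeff f (-i) = ∫ s in N, fourier i s ∂haar := by
    intro i
    rw [fourierCoeff, neg_neg, ← integral_indicator hN]
    refine integral_congr_ae ?_
    filter_upwards [indicatorConstLp_coeFn (p := 2) (hs := hN)
      (hμs := measure_ne_top haar N) (c := (1 : ℂ))] with s hs
    rw [hf, hs]
    by_cases hsN : s ∈ N
    · simp [hsN]
    · simp [hsN]
  have hinj : Function.Injective fun n : ℕ => -(k * (q : ℤ) ^ n) := by
    intro a b hab
    simp only [neg_inj] at hab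
    have h1 := mul_left_cancel₀ hk hab
    have h2 : q ^ a = q ^ b := by exact_mod_cast h1
    exact Nat.pow_right_injective hq h2
  have h1 : Tendsto (fun n : ℕ => -(k * (q : ℤ) ^ n)) atTop cofinite := by
    rw [← Nat.cofinite_eq_atTop]
    exact hinj.tendsto_cofinite
  have h2 := h0.comp h1
  have h3 : Tendsto (fun n : ℕ => ‖fourierCoeff f (-(k * (q : ℤ) ^ n))‖) atTop (𝓝 0) := by
    have := (Real.continuous_sqrt.tendsto 0).comp h2
    rw [Real.sqrt_zero] at this
    refine this.congr fun n => ?_
    simp only [Function.comp]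
    rw [Real.sqrt_sq (norm_nonneg _)]
  rw [tendsto_zero_iff_norm_tendsto_zero]
  refine h3.congr fun n => ?_
  rw [hcoef]

lemma tendsto_int {N : Set UnitAddCircle} (hN : MeasurableSet N) {q : ℕ} (hq : 2 ≤ q)
    (g : C(UnitAddCircle, ℂ)) :
    Tendsto (fun n : ℕ => ∫ s in N, g (q ^ n • s) ∂haar) atTop
      (𝓝 ((haar.real N : ℂ) * ∫ s, g s ∂haar)) := by
  have hcont : ∀ (n : ℕ) (g : C(UnitAddCircle, ℂ)), Continuous fun s => g (q ^ n • s) :=
    fun n g => g.continuous.comp (continuous_const_smul _)
  have hint : ∀ (n : ℕ) (g : C(UnitAddCircle, ℂ)) (ρ : Measure UnitAddCircle)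
      [IsFiniteMeasure ρ], Integrable (fun s => g (q ^ n • s)) ρ := by
    intro n g ρ _
    refine Integrable.of_bound (hcont n g).aestronglyMeasurable ‖g‖ ?_
    exact Eventually.of_forall fun s => g.norm_coe_le_norm _
  have hint' : ∀ (g : C(UnitAddCircle, ℂ)) (ρ : Measure UnitAddCircle)
      [IsFiniteMeasure ρ], Integrable (fun s => g s) ρ := by
    intro g ρ _
    refine Integrable.of_bound g.continuous.aestronglyMeasurable ‖g‖ ?_
    exact Eventually.of_forall fun s => g.norm_coe_le_norm _
  -- trigonometric polynomials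
  have hspan : ∀ h ∈ Submodule.span ℂ (range (fourier : ℤ → C(UnitAddCircle, ℂ))),
      Tendsto (fun n : ℕ => ∫ s in N, h (q ^ n • s) ∂haar) atTop
      (𝓝 ((haar.real N : ℂ) * ∫ s, h s ∂haar)) := by
    intro h hh
    induction hh using Submodule.span_induction with
    | mem h hh =>
      obtain ⟨k, rfl⟩ := hh
      by_cases hk : k = 0
      · subst hk
        simp only [fourier_zero, integral_const, mul_one, probReal_univ, one_smul]
        simp only [Measure.real, Measure.restrict_apply_univ]
        rw [show ((haar N).toReal • (1 : ℂ)) = ((haar N).toReal : ℂ) by simp]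
        exact tendsto_const_nhds
      · have h1 : ∫ s, fourier k s ∂haar = 0 := by
          exact integral_eq_zero_of_add_right_eq_neg (μ := haar)
            (fourier_add_half_inv_index hk (zero_lt_one (α := ℝ)))
        rw [h1, mul_zero]
        exact (rl hN hq hk).congr fun n => by simp_rw [fourier_pow]
    | zero => simp
    | add h1 h2 _ _ ih1 ih2 =>
      have := ih1.add ih2
      rw [← mul_add, ← integral_add (hint' h1 _) (hint' h2 _)] at this
      refine this.congr fun n => ?_
      rw [← integral_add (hint n h1 _) (hint n h2 _)]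
      rfl
    | smul a h _ ih =>
      have := ih.const_mul a
      rw [← mul_assoc, mul_comm a, mul_assoc, ← integral_const_mul] at this
      refine this.congr fun n => ?_
      rw [← integral_const_mul]
      rfl
  rw [Metric.tendsto_atTop]
  intro ε hε
  have hg : g ∈ closure (Submodule.span ℂ (range (fourier : ℤ → C(UnitAddCircle, ℂ))) :
      Set C(UnitAddCircle, ℂ)) := by
    have := span_fourier_closure_eq_top (T := (1 : ℝ))
    have h2 : g ∈ (Submodule.span ℂ (range (fourier : ℤ → C(UnitAddCircle, ℂ)))).topologicalClosure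
        := by rw [this]; trivial
    exact h2
  obtain ⟨h, hh, hd⟩ := Metric.mem_closure_iff.1 hg (ε / 3) (by positivity)
  obtain ⟨n0, hn0⟩ := Metric.tendsto_atTop.1 (hspan h hh) (ε / 3) (by positivity)
  refine ⟨n0, fun n hn => ?_⟩
  have h1 := hn0 n hn
  have hdist : ∀ s, ‖g s - h s‖ ≤ ε / 3 := by
    intro s
    have h2 := (g - h).norm_coe_le_norm s
    rw [dist_eq_norm] at hd
    exact h2.trans hd.le
  have h2 : ‖(∫ s in N, g (q ^ n • s) ∂haar) - ∫ s in N, h (q ^ n • s) ∂haar‖ ≤ ε / 3 := by
    rw [← integral_sub (hint n g _) (hint n h _)]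
    refine (norm_integral_le_of_norm_le_const (C := ε / 3)
      (Eventually.of_forall fun s => hdist _)).trans ?_
    have : (haar.restrict N).real univ ≤ 1 := by
      simp only [Measure.real, Measure.restrict_apply_univ]
      exact ENNReal.toReal_le_of_le_ofReal zero_le_one (by simpa using prob_le_one)
    nlinarith
  have h3 : ‖((haar.real N : ℂ) * ∫ s, g s ∂haar) - ((haar.real N : ℂ) * ∫ s, h s ∂haar)‖
      ≤ ε / 3 := by
    rw [← mul_sub, ← integral_sub (hint' g _) (hint' h _), norm_mul]
    have h4 : ‖∫ s, (g s - h s) ∂haar‖ ≤ ε / 3 := by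
      refine (norm_integral_le_of_norm_le_const (C := ε / 3)
        (Eventually.of_forall fun s => hdist _)).trans ?_
      simp
    have h5 : ‖(haar.real N : ℂ)‖ ≤ 1 := by
      rw [Complex.norm_real, Real.norm_of_nonneg measureReal_nonneg]
      exact measureReal_le_one
    calc ‖(haar.real N : ℂ)‖ * ‖∫ s, (g s - h s) ∂haar‖ ≤ 1 * (ε / 3) :=
          mul_le_mul h5 h4 (norm_nonneg _) zero_le_one
      _ = ε / 3 := one_mul _
  rw [dist_eq_norm] at h1 ⊢
  calc ‖(∫ s in N, g (q ^ n • s) ∂haar) - (haar.real N : ℂ) * ∫ s, g s ∂haar‖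
      = ‖((∫ s in N, g (q ^ n • s) ∂haar) - ∫ s in N, h (q ^ n • s) ∂haar) +
        ((∫ s in N, h (q ^ n • s) ∂haar) - (haar.real N : ℂ) * ∫ s, h s ∂haar) -
        (((haar.real N : ℂ) * ∫ s, g s ∂haar) - ((haar.real N : ℂ) * ∫ s, h s ∂haar))‖ := by
        congr 1; ring
    _ ≤ ε / 3 + ‖(∫ s in N, h (q ^ n • s) ∂haar) - (haar.real N : ℂ) * ∫ s, h s ∂haar‖ + ε / 3 :=
        (norm_sub_le _ _).trans (add_le_add ((norm_add_le _ _).trans (by gcongr)) h3)
    _ < ε := by linarith

/-- for an infinite set `R` of times, almost every `s` visits `V` at some time in `R` -/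
theorem ae_exists_mem {q : ℕ} (hq : 2 ≤ q) {R : Set ℕ} (hR : R.Infinite)
    {V : Set UnitAddCircle} (hV : IsOpen V) (hne : V.Nonempty) :
    ∀ᵐ s ∂haar, ∃ n ∈ R, q ^ n • s ∈ V := by
  set N : Set UnitAddCircle := {s | ∀ n ∈ R, q ^ n • s ∉ V} with hN
  have hNc : IsClosed N := by
    have : N = ⋂ n ∈ R, (fun s : UnitAddCircle => q ^ n • s) ⁻¹' Vᶜ := by
      ext s; simp [hN]
    rw [this]
    exact isClosed_biInter fun n _ => hV.isClosed_compl.preimage (continuous_const_smul _)
  obtain ⟨y, hy⟩ := hne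
  obtain ⟨f, hf0, hf1, hf01⟩ := exists_continuous_zero_one_of_isClosed hV.isClosed_compl
    (isClosed_singleton (x := y)) (by
      rw [Set.disjoint_singleton_right]; exact fun h => h hy)
  have hfpos : 0 < ∫ s, f s ∂haar := by
    refine f.continuous.integral_pos_of_hasCompactSupport_nonneg_nonzero
      (HasCompactSupport.of_compactSpace _) (fun s => (hf01 s).1) (x := y) ?_
    rw [hf1 (mem_singleton y)]
    simp
  set g : C(UnitAddCircle, ℂ) := ⟨fun s => (f s : ℂ), by fun_prop⟩ with hg
  have hlim := tendsto_int hNc.measurableSet hq g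
  have hint : ∫ s, g s ∂haar = ((∫ s, f s ∂haar : ℝ) : ℂ) := by
    rw [← integral_complex_ofReal]
    rfl
  have hfreq : ∃ᶠ n in atTop, ∫ s in N, g (q ^ n • s) ∂haar = 0 := by
    have : ∃ᶠ n in atTop, n ∈ R := Nat.frequently_atTop_iff_infinite.2 hR
    refine this.mono fun n hn => ?_
    refine setIntegral_eq_zero_of_forall_eq_zero fun s hs => ?_
    have : q ^ n • s ∈ Vᶜ := hs n hn
    simp only [hg, ContinuousMap.coe_mk]
    rw [hf0 this]
    simp
  have hzero : (haar.real N : ℂ) * ∫ s, g s ∂haar = 0 := by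
    by_contra hne0
    have h1 := hlim.eventually_ne hne0
    obtain ⟨n, hn1, hn2⟩ := (hfreq.and_eventually h1).exists
    exact hn2 hn1
  rw [hint, ← Complex.ofReal_mul] at hzero
  have h2 : haar.real N * ∫ s, f s ∂haar = 0 := by exact_mod_cast hzero
  have h3 : haar.real N = 0 := by
    rcases mul_eq_zero.1 h2 with h | h
    · exact h
    · exact absurd h hfpos.ne'
  have h4 : haar N = 0 := by
    rw [Measure.real, ENNReal.toReal_eq_zero_iff] at h3
    rcases h3 with h | h
    · exact h
    · exact absurd h (measure_ne_top _ _)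
  rw [ae_iff]
  convert h4 using 2
  ext s
  simp [hN]

end Pool.Agent.H.MP_96e181_an.PD
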