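import Pool.Agent.H.MP_96e181_an.pd.Gen

/-!
# Dense orbits along almost periodic sets of times

Helper file for the problem MP_96e181_an: a point with a dense `×q`-orbit has a dense orbit
along the set of times `n` with `d(n,0) < ε`, for every totally bounded shift invariant
pseudometric `d` on `ℕ`.
-/

open MeasureTheory Filter Topology Set

namespace Pool.Agent.H.MP_96e181_an.PD

/-- a shift invariant totally bounded pseudometric on `ℕ` -/
structure APMet (d : ℕ → ℕ → ℝ) : Prop where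
  symm : ∀ n m, d n m = d m n
  tri : ∀ n m l, d n l ≤ d n m + d m l
  shift : ∀ n m l, d (n + l) (m + l) = d n m
  tb : ∀ ε > 0, ∃ F : Finset ℕ, ∀ n, ∃ m ∈ F, d n m < ε

variable {d : ℕ → ℕ → ℝ}

lemma APMet.infinite (hd : APMet d) (m : ℕ) {ε : ℝ} (hε : 0 < ε) :
    {n : ℕ | d (n + m) 0 < ε}.Infinite := by
  obtain ⟨F, hF⟩ := hd.tb (ε / 2) (by positivity)
  choose f hfF hf using hF
  obtain ⟨j, hjF, hj⟩ : ∃ j ∈ F, {n : ℕ | f n = j}.Infinite := by
    by_contra hcon
    push Not at hcon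
    have : (univ : Set ℕ) = ⋃ j ∈ F, {n : ℕ | f n = j} := by
      ext n
      simp only [mem_univ, mem_iUnion, mem_ofPred_eq, exists_prop, true_iff]
      exact ⟨f n, hfF n, rfl⟩
    have hfin : (univ : Set ℕ).Finite := by
      rw [this]
      exact F.finite_toSet.biUnion fun j hj => hcon j hj
    exact Set.infinite_univ hfin
  obtain ⟨a, ha⟩ := hj.nonempty
  have ha' : f a = j := ha
  rw [Set.infinite_iff_exists_gt] at hj ⊢
  intro k
  obtain ⟨b, hb, hbk⟩ := hj (k + a + m)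
  have hb' : f b = j := hb
  refine ⟨b - a - m, ?_, by omega⟩
  show d (b - a - m + m) 0 < ε
  have e1 : b - a - m + m = b - a := by omega
  rw [e1]
  have e2 := hd.shift (b - a) 0 a
  rw [Nat.sub_add_cancel (by omega), zero_add] at e2
  rw [← e2]
  have h1 := hf a
  have h2 := hf b
  rw [ha'] at h1
  rw [hb'] at h2
  have h3 := hd.tri b j a
  rw [hd.symm j a] at h3
  linarith

/-- **Dense orbits along almost periodic sets of times.** -/
theorem APMet.exists_mem (hd : APMet d) {q : ℕ} (hq : 2 ≤ q) {x : UnitAddCircle}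
    (hx : Dense (range fun n : ℕ => q ^ n • x)) {V : Set UnitAddCircle} (hV : IsOpen V)
    (hne : V.Nonempty) {ε : ℝ} (hε : 0 < ε) : ∃ n : ℕ, d n 0 < ε ∧ q ^ n • x ∈ V := by
  obtain ⟨s, hs⟩ : ∃ s : UnitAddCircle, ∀ m : ℕ, ∃ n : ℕ, d (n + m) 0 < ε / 2 ∧ q ^ n • s ∈ V := by
    have : ∀ᵐ s ∂haar, ∀ m : ℕ, ∃ n ∈ {n : ℕ | d (n + m) 0 < ε / 2}, q ^ n • s ∈ V := by
      rw [ae_all_iff]
      intro m
      exact ae_exists_mem hq (hd.infinite m (by positivity)) hV hne
    obtain ⟨s, hs⟩ := this.exists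
    exact ⟨s, fun m => by
      obtain ⟨n, hn, h⟩ := hs m
      exact ⟨n, hn, h⟩⟩
  obtain ⟨F, hF⟩ := hd.tb (ε / 2) (by positivity)
  obtain ⟨f, hfF, hf⟩ : ∃ f ∈ F, ∀ U : Set UnitAddCircle, IsOpen U → s ∈ U →
      ∃ n : ℕ, q ^ n • x ∈ U ∧ d n f < ε / 2 := by
    by_contra hcon
    push Not at hcon
    choose! U hUo hsU hU using hcon
    have hopen : IsOpen (⋂ f ∈ F, U f) := isOpen_biInter_finset fun f hf => hUo f hf
    have hmem : s ∈ ⋂ f ∈ F, U f := by
      simp only [mem_iInter]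
      exact fun f hf => hsU f hf
    obtain ⟨_, hy, ⟨n, rfl⟩⟩ := hx.inter_open_nonempty _ hopen ⟨s, hmem⟩
    obtain ⟨f, hfF, hf⟩ := hF n
    simp only [mem_iInter] at hy
    exact absurd hf (not_lt.2 (hU f hfF n (hy f hfF)))
  obtain ⟨n, hn, hnV⟩ := hs f
  have hUo : IsOpen {t : UnitAddCircle | q ^ n • t ∈ V} :=
    hV.preimage (continuous_const_smul (q ^ n))
  obtain ⟨n', hn', hd'⟩ := hf _ hUo hnV
  refine ⟨n' + n, ?_, ?_⟩
  · have h1 := hd.tri (n' + n) (f + n) 0
    rw [hd.shift] at h1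
    rw [add_comm n f] at hn
    linarith
  · have h2 : q ^ n • q ^ n' • x ∈ V := hn'
    rwa [← mul_smul, ← pow_add, add_comm n n'] at h2

end Pool.Agent.H.MP_96e181_an.PD
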