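import Pool.Agent.H.MP_96e181_an.pd.AP
import Pool.Agent.H.MP_96e181_an.DenseOrbit

/-!
# Invariant sets of product systems have fibres of full support

Helper file for the problem MP_96e181_an.
-/

open MeasureTheory Filter Topology Set

namespace Pool.Agent.H.MP_96e181_an.PD

lemma iter_smul (q n : ℕ) (x : UnitAddCircle) :
    (fun y : UnitAddCircle => q • y)^[n] x = q ^ n • x := by
  induction n with
  | zero => simp
  | succ n ih => rw [Function.iterate_succ_apply', ih, pow_succ', mul_smul]

/-- **Main theorem, product form.** Let `μ` be an atomless probability measure on the circle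
invariant under `×p` and `×q`, and let `(Y, ν, S)` be any probability preserving system. Every
`(×q) × S`-invariant set has, over almost every `y`, a fibre which is null or has full support. -/
theorem fibre_full_support {p q : ℕ} (hp : 2 ≤ p) (hq : 2 ≤ q)
    (hpq : Irrational (Real.log p / Real.log q)) {μ : Measure UnitAddCircle}
    [IsProbabilityMeasure μ] (hna : ∀ x, μ {x} = 0)
    (hμp : MeasurePreserving (fun x : UnitAddCircle => p • x) μ μ)
    (hμq : MeasurePreserving (fun x : UnitAddCircle => q • x) μ μ)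
    {Y : Type*} [MeasurableSpace Y] {ν : Measure Y} [IsProbabilityMeasure ν] [IsSeparable ν]
    {S : Y → Y} (hS : MeasurePreserving S ν ν) {B : Set (UnitAddCircle × Y)}
    (hB : MeasurableSet B)
    (hinv : (μ.prod ν) (symmDiff (Prod.map (fun x : UnitAddCircle => q • x) S ⁻¹' B) B) = 0)
    {V : Set UnitAddCircle} (hV : IsOpen V) (hne : V.Nonempty) :
    ∀ᵐ y ∂ν, μ {x | (x, y) ∈ B} ≠ 0 → 0 < μ {x | (x, y) ∈ B ∧ x ∈ V} := by
  have : NullSingletonClass μ := ⟨hna⟩
  have hVB : MeasurableSet (B ∩ V ×ˢ univ) := hB.inter (hV.measurableSet.prod MeasurableSet.univ)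
  set D : Set Y := {y | μ ((fun x => (x, y)) ⁻¹' B) ≠ 0 ∧
    μ ((fun x => (x, y)) ⁻¹' (B ∩ V ×ˢ univ)) = 0} with hD
  have hDm : MeasurableSet D := by
    refine MeasurableSet.inter ?_ ?_
    · exact (measurable_measure_prodMk_right hB) (measurableSet_singleton 0).compl
    · exact (measurable_measure_prodMk_right hVB) (measurableSet_singleton 0)
  by_cases hν : ν D = 0
  · have hae : ∀ᵐ y ∂ν, y ∉ D := measure_eq_zero_iff_ae_notMem.1 hν
    filter_upwards [hae] with y hy h1
    rw [pos_iff_ne_zero]
    intro h2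
    apply hy
    refine ⟨h1, ?_⟩
    convert h2 using 2
    ext x; simp
  · exfalso
    have hBD : MeasurableSet (B ∩ univ ×ˢ D) := hB.inter (MeasurableSet.univ.prod hDm)
    have hVD : MeasurableSet (B ∩ V ×ˢ D) := hB.inter (hV.measurableSet.prod hDm)
    -- the part over `V` is null
    have h1 : (μ.prod ν) (B ∩ V ×ˢ D) = 0 := by
      rw [Measure.prod_apply_symm hVD, lintegral_eq_zero_iff (measurable_measure_prodMk_right hVD)]
      refine Eventually.of_forall fun y => ?_
      show μ ((fun x => (x, y)) ⁻¹' (B ∩ V ×ˢ D)) = 0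
      by_cases hy : y ∈ D
      · refine measure_mono_null ?_ hy.2
        intro x hx
        exact ⟨hx.1, hx.2.1, trivial⟩
      · have : (fun x => (x, y)) ⁻¹' (B ∩ V ×ˢ D) = ∅ := by
          ext x; simp [hy]
        rw [this, measure_empty]
    have h2 : (μ.prod ν) (B ∩ univ ×ˢ D) ≠ 0 := by
      intro h0
      rw [Measure.prod_apply_symm hBD, lintegral_eq_zero_iff (measurable_measure_prodMk_right hBD)]
        at h0
      apply hν
      have hae : ∀ᵐ y ∂ν, y ∉ D := by
        filter_upwards [h0] with y hy hyD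
        apply hyD.1
        have h3 : μ ((fun x => (x, y)) ⁻¹' (B ∩ univ ×ˢ D)) = 0 := hy
        convert h3 using 2
        ext x; simp [hyD]
      exact measure_eq_zero_iff_ae_notMem.2 hae
    -- the function `k`
    set k : UnitAddCircle → ENNReal := fun x => ν (Prod.mk x ⁻¹' (B ∩ univ ×ˢ D)) with hk
    have hk0 : ∀ᵐ x ∂μ, x ∈ V → k x = 0 := by
      filter_upwards [(Measure.measure_prod_null hVD).1 h1] with x hx hxV
      have h3 : ν (Prod.mk x ⁻¹' (B ∩ V ×ˢ D)) = 0 := hx
      rw [hk]
      convert h3 using 2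
      ext y; simp [hxV]
    have hkq : ∀ᵐ x ∂μ, ∀ n : ℕ, q ^ n • x ∈ V → k (q ^ n • x) = 0 := by
      rw [ae_all_iff]
      intro n
      have := (hμq.iterate n).quasiMeasurePreserving.ae hk0
      filter_upwards [this] with x hx
      rwa [iter_smul] at hx
    have hkpos : ∃ᵐ x ∂μ, k x ≠ 0 := by
      rw [Filter.Frequently]
      intro hcon
      apply h2
      refine Measure.measure_prod_null_of_ae_null hBD ?_
      filter_upwards [hcon] with x hx
      exact not_not.1 hx
    obtain ⟨x, hkx, hxV, hdense, hgood, hap⟩ := (hkpos.and_eventually (hkq.and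
      ((ae_dense_orbit hp hq hpq hμp).and ((ae_good hμq hB hS.measurable hinv).and
      (ae_apMet hμq hS hB hinv))))).exists
    have hkreal : 0 < (k x).toReal := ENNReal.toReal_pos hkx (measure_ne_top _ _)
    obtain ⟨n, hn, hnV⟩ := hap.exists_mem hq hdense hV hne hkreal
    have hkn := hxV n hnV
    have hd := hgood.dist_self hB hS n
    rw [iter_smul] at hd
    rw [← hd] at hn
    have h3 : (k x).toReal ≤ ν.real (symmDiff (Prod.mk x ⁻¹' B) (Prod.mk (q ^ n • x) ⁻¹' B)) := by
      have h4 : Prod.mk x ⁻¹' (B ∩ univ ×ˢ D) ⊆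
          Prod.mk (q ^ n • x) ⁻¹' (B ∩ univ ×ˢ D) ∪
            symmDiff (Prod.mk x ⁻¹' B) (Prod.mk (q ^ n • x) ⁻¹' B) := by
        intro y hy
        by_cases hyB : (q ^ n • x, y) ∈ B
        · exact Or.inl ⟨hyB, hy.2⟩
        · exact Or.inr (Or.inl ⟨hy.1, hyB⟩)
      have h5 : k x ≤ 0 + ν (symmDiff (Prod.mk x ⁻¹' B) (Prod.mk (q ^ n • x) ⁻¹' B)) := by
        rw [← hkn]
        exact (measure_mono h4).trans (measure_union_le _ _)
      rw [zero_add] at h5
      exact ENNReal.toReal_mono (measure_ne_top _ _) h5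
    linarith

end Pool.Agent.H.MP_96e181_an.PD
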